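import Pool.Agent.Work.MP_21aa77_al.Exp4SC
import Mathlib.GroupTheory.Nilpotent
import Mathlib.Algebra.Ring.Subring.Basic
import Mathlib.Algebra.Group.Hom.End

/-! The conjugation action on an abelian normal subgroup. -/

set_option autoImplicit false
set_option linter.unusedSectionVars false

namespace Pool.Agent.Work.MP_21aa77_al

open Subgroup
open scoped IsMulCommutative commutatorElement

variable {G : Type*} [Group G] (V : Subgroup G) [V.Normal] [IsMulCommutative V]

/-- the underlying element of `G`. -/
def val (v : Additive V) : G := (v.toMul : V)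

lemma val_mem (v : Additive V) : val V v ∈ V := (v.toMul).2

lemma val_inj {v w : Additive V} (h : val V v = val V w) : v = w :=
  Additive.toMul.injective (Subtype.ext h)

lemma val_add (v w : Additive V) : val V (v + w) = val V v * val V w := rfl
lemma val_zero : val V 0 = 1 := rfl
lemma val_neg (v : Additive V) : val V (-v) = (val V v)⁻¹ := rfl
lemma val_sub (v w : Additive V) : val V (v - w) = val V v * (val V w)⁻¹ := by
  rw [sub_eq_add_neg, val_add, val_neg]

/-- conjugation action. -/
def act : G →* AddMonoid.End (Additive V) where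
  toFun g := AddMonoidHom.mk'
    (fun v => Additive.ofMul ⟨g * val V v * g⁻¹, Subgroup.Normal.conj_mem inferInstance _
      (val_mem V v) g⟩) (fun v w => val_inj V (by
        change g * (val V v * val V w) * g⁻¹ = g * val V v * g⁻¹ * (g * val V w * g⁻¹)
        group))
  map_one' := by
    refine AddMonoidHom.ext fun v => val_inj V ?_
    change 1 * val V v * 1⁻¹ = val V v
    group
  map_mul' g h := by
    refine AddMonoidHom.ext fun v => val_inj V ?_
    change g * h * val V v * (g * h)⁻¹ = g * (h * val V v * h⁻¹) * g⁻¹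
    group

lemma val_act (g : G) (v : Additive V) : val V (act V g v) = g * val V v * g⁻¹ := rfl

lemma val_act_sub (g : G) (v : Additive V) : val V ((act V g - 1) v) = ⁅g, val V v⁆ := by
  change val V (act V g v - v) = _
  rw [val_sub, val_act, commutatorElement_def]

lemma to_span {H E : Type*} [Group H] [Ring E] (ρ0 : H →* E) :
    ∃ (R : Subring E) (ρ : H →* R), (∀ h, (ρ h : E) = ρ0 h) ∧
      ∀ r : R, r ∈ AddSubgroup.closure (Set.range ρ) := by
  let R : Subring E := Subring.closure (Set.range ρ0)
  let ρ : H →* R := ρ0.codRestrict R fun h => Subring.subset_closure ⟨h, rfl⟩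
  refine ⟨R, ρ, fun _ => rfl, ?_⟩
  have hm : ∀ x ∈ AddSubgroup.closure (Set.range ρ), ∀ y ∈ AddSubgroup.closure (Set.range ρ),
      x * y ∈ AddSubgroup.closure (Set.range ρ) := by
    intro x hx y hy
    induction hx, hy using AddSubgroup.closure_induction₂ with
    | mem x y hx hy =>
      obtain ⟨g, rfl⟩ := hx
      obtain ⟨h, rfl⟩ := hy
      exact AddSubgroup.subset_closure ⟨g * h, map_mul _ _ _⟩
    | zero_left => simp
    | zero_right => simp
    | add_left x y z _ _ _ h1 h2 => rw [add_mul]; exact add_mem h1 h2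
    | add_right x y z _ _ _ h1 h2 => rw [mul_add]; exact add_mem h1 h2
    | neg_left x y _ _ h => rw [neg_mul]; exact neg_mem h
    | neg_right x y _ _ h => rw [mul_neg]; exact neg_mem h
  rintro ⟨r, hr⟩
  induction hr using Subring.closure_induction with
  | mem x hx => obtain ⟨h, rfl⟩ := hx; exact AddSubgroup.subset_closure ⟨h, rfl⟩
  | zero => exact zero_mem _
  | one => exact AddSubgroup.subset_closure ⟨1, Subtype.ext (map_one ρ0)⟩
  | add x y _ _ hx hy => exact add_mem hx hy
  | neg x _ hx => exact neg_mem hx
  | mul x y _ _ hx hy => exact hm _ hx _ hy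

/-- two elements have commuting conjugates. -/
def P2 (G : Type*) [Group G] : Prop := ∀ x y : G, ∃ k : G, Commute (k⁻¹ * x * k) y

lemma centr_of_commute {x y : G} (h : Commute (act V x) (act V y)) :
    ⁅x, y⁆ ∈ centralizer (V : Set G) := by
  have : act V ⁅x, y⁆ = 1 := by
    have h1 : act V (x * y) = act V (y * x) := by rw [map_mul, map_mul, h.eq]
    have : ⁅x, y⁆ = x * y * (y * x)⁻¹ := by group
    rw [this, map_mul, h1, ← map_mul, mul_inv_cancel, map_one]
  intro v hv
  have h2 := val_act V ⁅x, y⁆ (Additive.ofMul ⟨v, hv⟩)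
  rw [this] at h2
  change v = ⁅x, y⁆ * v * ⁅x, y⁆⁻¹ at h2
  rw [eq_mul_inv_iff_mul_eq] at h2
  exact h2

/-- iterated commutators with `N`. -/
def itc (W N : Subgroup G) : ℕ → Subgroup G
  | 0 => W
  | m + 1 => ⁅N, itc W N m⁆

instance itc_normal (W N : Subgroup G) [W.Normal] [N.Normal] (m : ℕ) : (itc W N m).Normal := by
  induction m with
  | zero => exact ‹W.Normal›
  | succ m ih => rw [itc]; infer_instance

lemma itc_le (W N : Subgroup G) [N.Normal] (m : ℕ) :
    itc W N (m + 1) ≤ N.lowerCentralSeries m := by
  induction m with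
  | zero => exact commutator_le_left _ _
  | succ m ih =>
    rw [itc, Subgroup.lowerCentralSeries_succ, Subgroup.commutator_comm]
    exact commutator_mono ih le_rfl

lemma fz_bot {R : Subring (AddMonoid.End (Additive V))} {ρ : G →* R}
    (hρ : ∀ g, (ρ g : AddMonoid.End (Additive V)) = act V g)
    (hsp : ∀ r : R, r ∈ AddSubgroup.closure (Set.range ρ)) (w : G) (c : ℕ)
    (hc : (normalClosure {w}).lowerCentralSeries c = ⊥) : Fz (ρ w - 1) (c + 1) = ⊥ := by
  have pres : ∀ (D : Subgroup G) [D.Normal] (r : R) (v : Additive V), val V v ∈ D →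
      val V ((r : AddMonoid.End (Additive V)) v) ∈ D := by
    intro D hD r v hv
    induction hsp r using AddSubgroup.closure_induction with
    | mem x hx =>
      obtain ⟨g, rfl⟩ := hx
      rw [hρ, val_act]
      exact hD.conj_mem _ hv g
    | zero => exact one_mem D
    | add x y _ _ hx hy => exact mul_mem hx hy
    | neg x _ hx => exact inv_mem hx
  have key : ∀ (m : ℕ) (r : R), r ∈ Fz (ρ w - 1) m → ∀ v : Additive V,
      val V ((r : AddMonoid.End (Additive V)) v) ∈ itc V (normalClosure {w}) m := by
    intro m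
    induction m with
    | zero => intro r _ v; exact val_mem V _
    | succ m ih =>
      intro r hr v
      induction hr using AddSubgroup.closure_induction with
      | mem x hx =>
        obtain ⟨r, u, hu, rfl⟩ := hx
        refine pres _ r ((((ρ w - 1 : R) : AddMonoid.End (Additive V)))
          ((u : AddMonoid.End (Additive V)) v)) ?_
        have : ((ρ w - 1 : R) : AddMonoid.End (Additive V)) = act V w - 1 := by
          rw [← hρ]; rfl
        rw [this, val_act_sub]
        exact commutator_mem_commutator (subset_normalClosure rfl) (ih u hu v)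
      | zero => exact one_mem _
      | add x y _ _ hx hy => exact mul_mem hx hy
      | neg x _ hx => exact inv_mem hx
  refine le_bot_iff.1 fun r hr => ?_
  rw [AddSubgroup.mem_bot]
  refine Subtype.ext (AddMonoidHom.ext fun v => val_inj V ?_)
  have := itc_le V _ c (key _ r hr v)
  rw [hc, Subgroup.mem_bot] at this
  exact this

lemma nc_conj_le (t g : G) : normalClosure {g⁻¹ * t * g} ≤ normalClosure ({t} : Set G) := by
  refine normalClosure_le_normal ?_
  rintro _ rfl
  simpa using (normalClosure_normal (s := {t})).conj_mem t (subset_normalClosure rfl) g⁻¹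

/-- bounded Fitting degree: commutators centralise every abelian normal subgroup. -/
theorem centr_bdd (hp : P2 G) (c : ℕ) (hc : ∀ w : G, (normalClosure {w}).lowerCentralSeries c = ⊥)
    (hg : closure {t : G | (normalClosure {t}).lowerCentralSeries 1 = ⊥} = ⊤) (x y : G) :
    ⁅x, y⁆ ∈ centralizer (V : Set G) := by
  obtain ⟨R, ρ, hρ, hsp⟩ := to_span (act V)
  have hs : Setup ρ {t : G | (normalClosure {t}).lowerCentralSeries 1 = ⊥} := by
    refine ⟨hsp, fun t ht g => ?_, hg, fun t ht r => ?_, hp⟩
    · exact le_bot_iff.1 (ht ▸ lowerCentralSeries_mono 1 (nc_conj_le t g))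
    · have := Fz_mul (ρ t - 1) 1 1 (Fz_right _ _ r (self_mem_Fz _)) (self_mem_Fz _)
      rwa [fz_bot V hρ hsp t 1 ht, AddSubgroup.mem_bot] at this
  have := hs.comm_of_bdd (c + 1) (fun w => fz_bot V hρ hsp w c (hc w)) x y
  refine centr_of_commute V ?_
  rw [← hρ, ← hρ]
  exact congrArg Subtype.val this.eq

lemma four_act (h4 : ∀ x : G, x ^ 4 = 1) (h2 : ∀ v ∈ V, v * v = 1) : Four (act V) := by
  constructor
  · intro r
    exact AddMonoidHom.ext fun v => val_inj V (h2 _ (val_mem V (r v)))
  · intro g
    refine AddMonoidHom.ext fun v => val_inj V ?_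
    change val V v * (g * val V v * g⁻¹) * (g * (g * val V v * g⁻¹) * g⁻¹) *
      (g⁻¹ * val V v * g⁻¹⁻¹) = 1
    calc _ = val V v * g * val V v * g * val V v * ((g ^ 4)⁻¹ * g) * val V v * g := by group
      _ = (val V v * g) ^ 4 := by rw [h4 g]; simp only [pow_succ, pow_zero]; group
      _ = 1 := h4 _

lemma Four.sub {H E : Type*} [Group H] [Ring E] {ρ0 : G →* E} (h : Four ρ0) (φ : H →* G)
    {R : Subring E} {ρ : H →* R} (hρ : ∀ g, (ρ g : E) = ρ0 (φ g)) : Four ρ := by
  refine ⟨fun r => Subtype.ext (h.two r), fun g => Subtype.ext ?_⟩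
  simpa [hρ] using h.nrm (φ g)

/-- the subgroup generated by the squares of the elements of `W`. -/
def sqs (W : Subgroup G) : Subgroup G := closure {y | ∃ w ∈ W, y = w * w}

instance sqs_normal (W : Subgroup G) [hW : W.Normal] : (sqs W).Normal := by
  constructor
  intro n hn g
  induction hn using Subgroup.closure_induction with
  | mem y hy =>
    obtain ⟨w, hw, rfl⟩ := hy
    exact subset_closure ⟨g * w * g⁻¹, hW.conj_mem w hw g, by group⟩
  | one => simp
  | mul x y _ _ hx hy => convert mul_mem hx hy using 1; group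
  | inv x _ hx => convert inv_mem hx using 1; group

/-- exponent four: commutators of products of squares centralise elementary abelian normal
subgroups. -/
theorem centr_four (h4 : ∀ x : G, x ^ 4 = 1) (h2 : ∀ v ∈ V, v * v = 1)
    (hp : P2 (sqs (⊤ : Subgroup G))) :
    ⁅sqs (⊤ : Subgroup G), sqs (⊤ : Subgroup G)⁆ ≤ centralizer (V : Set G) := by
  obtain ⟨R, ρ, hρ, hsp⟩ := to_span ((act V).comp (sqs (⊤ : Subgroup G)).subtype)
  have hf := four_act V h4 h2
  have hs : Setup ρ {t : sqs (⊤ : Subgroup G) | ∃ x : G, (t : G) = x * x} := by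
    refine ⟨hsp, ?_, ?_, ?_, hp⟩
    · rintro t ⟨x, hx⟩ g
      exact ⟨(g : G)⁻¹ * x * g, by simp only [coe_mul, coe_inv, hx]; group⟩
    · rw [eq_top_iff]
      rintro ⟨y, hy⟩ -
      induction hy using Subgroup.closure_induction with
      | mem y hy => obtain ⟨w, -, rfl⟩ := hy; exact subset_closure ⟨w, rfl⟩
      | one => exact one_mem _
      | mul x y _ _ hx hy => exact mul_mem hx hy
      | inv x _ hx => exact inv_mem hx
    · rintro t ⟨x, hx⟩ r
      induction hsp r using AddSubgroup.closure_induction with
      | mem g hg =>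
        obtain ⟨g, rfl⟩ := hg
        refine Subtype.ext ?_
        simpa [hρ, hx] using hf.sq_sand x g
      | zero => simp
      | add x y _ _ hx hy => rw [mul_add, add_mul, hx, hy, add_zero]
      | neg x _ hx => rw [mul_neg, neg_mul, hx, neg_zero]
  refine commutator_le.2 fun x hx y hy => centr_of_commute V ?_
  have := (hf.sub _ hρ).comm hs ⟨x, hx⟩ ⟨y, hy⟩
  have h5 := congrArg Subtype.val this.eq
  change _ * _ = _ * _
  simpa [hρ] using h5

/-- exponent four: the normal closure of a square acts quadratically. -/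
theorem quad_four (h4 : ∀ x : G, x ^ 4 = 1) (h2 : ∀ v ∈ V, v * v = 1) (x : G) :
    itc V (normalClosure {x * x}) 2 = ⊥ := by
  have hf := four_act V h4 h2
  set N := normalClosure ({x * x} : Set G) with hN
  have h1 : ∀ s ∈ Group.conjugatesOfSet ({x * x} : Set G), ∀ v ∈ V,
      ⁅s, v⁆ ∈ centralizer (N : Set G) := by
    intro s hs v hv
    rw [hN, normalClosure, centralizer_closure]
    intro s' hs'
    obtain ⟨_, rfl, h⟩ := Group.mem_conjugatesOfSet_iff.1 hs
    obtain ⟨a, rfl⟩ := isConj_iff.1 h
    obtain ⟨_, rfl, h'⟩ := Group.mem_conjugatesOfSet_iff.1 hs'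
    obtain ⟨b, rfl⟩ := isConj_iff.1 h'
    have e : ∀ c : G, act V (c * (x * x) * c⁻¹) - 1 = act V c * (act V (x * x) - 1) * act V c⁻¹ := by
      intro c
      rw [mul_sub, sub_mul, mul_one, ← map_mul, ← map_mul, ← map_mul, mul_inv_cancel, map_one]
    have key : (act V (b * (x * x) * b⁻¹) - 1) * (act V (a * (x * x) * a⁻¹) - 1) = 0 := by
      rw [e, e]
      have := hf.sq_sand x (b⁻¹ * a)
      rw [map_mul (act V) b⁻¹] at this
      linear_combination (norm := noncomm_ring) act V b * this * act V a⁻¹
    have := congrArg (fun r : AddMonoid.End (Additive V) => val V (r (Additive.ofMul ⟨v, hv⟩))) key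
    change val V ((act V (b * (x * x) * b⁻¹) - 1) ((act V (a * (x * x) * a⁻¹) - 1)
      (Additive.ofMul ⟨v, hv⟩))) = 1 at this
    rw [val_act_sub, val_act_sub] at this
    exact commutatorElement_eq_one_iff_mul_comm.1 this
  have h3 : ⁅N, V⁆ ≤ centralizer (N : Set G) := by
    refine commutator_le.2 fun n hn => ?_
    induction hn using Subgroup.closure_induction with
    | mem s hs => exact h1 s hs
    | one => simp
    | mul a b _ _ ha hb =>
      intro v hv
      rw [commutatorElement_mul_left_eq_conj_mul]
      exact mul_mem (Subgroup.Normal.conj_mem inferInstance _ (hb v hv) a) (ha v hv)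
    | inv a _ ha =>
      intro v hv
      rw [commutatorElement_inv_left, ← commutatorElement_inv]
      simpa using Subgroup.Normal.conj_mem inferInstance _ (inv_mem (ha v hv)) a⁻¹
  rw [itc, Subgroup.commutator_comm, commutator_eq_bot_iff_le_centralizer]
  exact h3

end Pool.Agent.Work.MP_21aa77_al
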