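import Pool.Agent.Work.MP_21aa77_al.Filt
import Mathlib.Algebra.Group.Subgroup.Ker

/-! The ring-theoretic core: a shear (transfer) argument for multilinear maps evaluated on
sums of sandwiches. -/

set_option autoImplicit false
set_option linter.unusedSectionVars false

namespace Pool.Agent.Work.MP_21aa77_al

open Finset Function

variable {H R : Type*} [Group H] [Ring R] (ρ : H →* R) (S : Set H)

/-- conjugation by `ρ k`. -/
def cj (k : H) : R →ₗ[ℤ] R where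
  toFun r := ρ k⁻¹ * r * ρ k
  map_add' x y := by rw [mul_add, add_mul]
  map_smul' c x := by rw [mul_smul_comm, smul_mul_assoc]; rfl

lemma cj_apply (k : H) (r : R) : cj ρ k r = ρ k⁻¹ * r * ρ k := rfl

lemma cj_one (r : R) : cj ρ 1 r = r := by simp [cj_apply]

lemma cj_cj (k g : H) (r : R) : cj ρ g (cj ρ k r) = cj ρ (k * g) r := by
  simp only [cj_apply, mul_inv_rev, map_mul, mul_assoc]

lemma cj_rho (k w : H) : cj ρ k (ρ w) = ρ (k⁻¹ * w * k) := by
  simp only [cj_apply, map_mul]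

lemma cj_one' (k : H) : cj ρ k 1 = 1 := by
  rw [cj_apply, mul_one, ← map_mul, inv_mul_cancel, map_one]

/-- additive span of the sandwich operators. -/
def LL : AddSubgroup R := AddSubgroup.closure {T | ∃ t ∈ S, T = ρ t - 1}

/-- standing hypotheses. -/
structure Setup : Prop where
  span : ∀ r : R, r ∈ AddSubgroup.closure (Set.range ρ)
  conj : ∀ t ∈ S, ∀ g : H, g⁻¹ * t * g ∈ S
  gen : Subgroup.closure S = ⊤
  sand : ∀ t ∈ S, ∀ r : R, (ρ t - 1) * r * (ρ t - 1) = 0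
  p2 : ∀ x y : H, ∃ k : H, Commute (k⁻¹ * x * k) y

section
variable {σ : Type} [Fintype σ] [DecidableEq σ]

/-- `f` vanishes as soon as the conjugated slots `α`, `β` commute. -/
def PK (f : ML σ R) (α β : σ) (g h : H) : Prop :=
  ∀ a : σ → R, Commute (cj ρ g (a α)) (cj ρ h (a β)) → f a = 0

/-- the class of maps used in the extremal argument. -/
def CC (f : ML σ R) : Prop := WL f ∧ ∃ α β g h, α ≠ β ∧ PK ρ f α β g h

/-- `a` is constant on `Z` with value in `LL`. -/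
def Cst (a : σ → R) (Z : Finset σ) : Prop := ∃ x ∈ LL ρ S, ∀ s ∈ Z, a s = x

/-- conjugate the slots. -/
def tw (f : ML σ R) (c : σ → H) : ML σ R := f.compLinearMap fun s => cj ρ (c s)

lemma tw_apply (f : ML σ R) (c : σ → H) (a : σ → R) :
    tw ρ f c a = f fun s => cj ρ (c s) (a s) := rfl

variable {ρ}

lemma WL.tw {f : ML σ R} (hf : WL f) (c : σ → H) : WL (tw ρ f c) := by
  intro z a m h
  rw [tw_apply]
  exact hf z _ m fun s => Fz_right _ _ _ (Fz_left _ _ _ (h s))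

lemma PK.tw {f : ML σ R} {α β : σ} {g h : H} (hf : PK ρ f α β g h) (c : σ → H) :
    PK ρ (tw ρ f c) α β (c α * g) (c β * h) := by
  intro a ha
  rw [tw_apply]
  exact hf _ (by simpa only [cj_cj] using ha)

lemma CC.tw {f : ML σ R} (hf : CC ρ f) (c : σ → H) : CC ρ (tw ρ f c) := by
  obtain ⟨h1, α, β, g, h, hab, h2⟩ := hf
  exact ⟨h1.tw c, α, β, _, _, hab, h2.tw c⟩

lemma tw_tw (f : ML σ R) (c d : σ → H) : tw ρ (tw ρ f c) d = tw ρ f (d * c) := by
  ext a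
  simp only [tw_apply, cj_cj, Pi.mul_apply]

lemma tw_one (f : ML σ R) : tw ρ f 1 = f := by
  ext a
  simp only [tw_apply, Pi.one_apply, cj_one]

variable {S}

lemma Cst.congr {a b : σ → R} {Z : Finset σ} (h : Cst ρ S a Z) (e : ∀ s ∈ Z, b s = a s) :
    Cst ρ S b Z := by
  obtain ⟨x, hx, h⟩ := h
  exact ⟨x, hx, fun s hs => (e s hs).trans (h s hs)⟩

lemma Setup.cj_mem (hs : Setup ρ S) (k : H) {x : R} (hx : x ∈ LL ρ S) : cj ρ k x ∈ LL ρ S := by
  induction hx using AddSubgroup.closure_induction with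
  | mem w hw =>
    obtain ⟨t, ht, rfl⟩ := hw
    refine AddSubgroup.subset_closure ⟨_, hs.conj t ht k, ?_⟩
    rw [map_sub, cj_rho, cj_one']
  | zero => simp
  | add x y _ _ hx hy => rw [map_add]; exact add_mem hx hy
  | neg x _ hx => rw [map_neg]; exact neg_mem hx

end

/-- there is a nonzero configuration with constant sets of the given sizes. -/
def NZ (ns : List ℕ) : Prop :=
  ∃ (σ : Type) (_ : Fintype σ) (_ : DecidableEq σ) (f : ML σ R) (a : σ → R)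
    (𝒵 : List (Finset σ)), CC ρ f ∧ 𝒵.Pairwise Disjoint ∧ 𝒵.map Finset.card = ns ∧
      (∀ Z ∈ 𝒵, Cst ρ S a Z) ∧ f a ≠ 0

variable {ρ S}

lemma exists_perm_map {α β : Type*} (c : α → β) {ns ms : List β} (h : ns.Perm ms) :
    ∀ l : List α, l.map c = ns → ∃ l' : List α, l.Perm l' ∧ l'.map c = ms := by
  induction h with
  | nil => intro l hl; exact ⟨l, List.Perm.refl _, hl⟩
  | cons x _ ih =>
    intro l hl
    obtain ⟨a, l, rfl, rfl, hl'⟩ := List.map_eq_cons_iff.1 hl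
    obtain ⟨l', h1, h2⟩ := ih l hl'
    exact ⟨a :: l', h1.cons a, by rw [List.map_cons, h2]⟩
  | swap x y l0 =>
    intro l hl
    obtain ⟨a, l, rfl, rfl, hl'⟩ := List.map_eq_cons_iff.1 hl
    obtain ⟨b, l, rfl, rfl, rfl⟩ := List.map_eq_cons_iff.1 hl'
    exact ⟨b :: a :: l, List.Perm.swap _ _ _, rfl⟩
  | trans _ _ ih1 ih2 =>
    intro l hl
    obtain ⟨l', h1, h2⟩ := ih1 l hl
    obtain ⟨l'', h3, h4⟩ := ih2 l' h2
    exact ⟨l'', h1.trans h3, h4⟩

lemma NZ.perm {ns ms : List ℕ} (h : NZ ρ S ns) (hp : ns.Perm ms) : NZ ρ S ms := by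
  obtain ⟨σ, i1, i2, f, a, 𝒵, h1, h2, h3, h4, h5⟩ := h
  obtain ⟨𝒵', p, e⟩ := exists_perm_map _ hp 𝒵 h3
  exact ⟨σ, i1, i2, f, a, 𝒵', h1, (p.pairwise_iff fun h => h.symm).1 h2, e,
    fun Z hZ => h4 Z (p.mem_iff.2 hZ), h5⟩

lemma NZ.zero_cons {ns : List ℕ} (h : NZ ρ S ns) : NZ ρ S (0 :: ns) := by
  obtain ⟨σ, i1, i2, f, a, 𝒵, h1, h2, h3, h4, h5⟩ := h
  refine ⟨σ, i1, i2, f, a, ∅ :: 𝒵, h1, by simpa using h2, by simp [h3], ?_, h5⟩
  intro Z hZ
  rcases List.mem_cons.1 hZ with rfl | hZ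
  · exact ⟨0, zero_mem _, by simp⟩
  · exact h4 Z hZ

lemma NZ.tail {n : ℕ} {ns : List ℕ} (h : NZ ρ S (n :: ns)) : NZ ρ S ns := by
  obtain ⟨σ, i1, i2, f, a, 𝒵, h1, h2, h3, h4, h5⟩ := h
  obtain ⟨Z, 𝒵, rfl, -, h3⟩ := List.map_eq_cons_iff.1 h3
  exact ⟨σ, i1, i2, f, a, 𝒵, h1, h2.of_cons, h3, fun Z hZ => h4 Z (List.mem_cons_of_mem _ hZ), h5⟩

section
variable {σ : Type} [Fintype σ] [DecidableEq σ]

/-- `z` may be replaced on `Z` by the group element `w` (or `w - 1`). -/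
def Grp (ρ : H →* R) (Z : Finset σ) (z : R) (w : H) : Prop :=
  ∃ W : R, (W = ρ w ∨ W = ρ w - 1) ∧ ∀ (f : ML σ R), WL f → ∀ a : σ → R,
    f (Z.piecewise (fun _ => z) a) = f (Z.piecewise (fun _ => W) a)

lemma Setup.red0 (hs : Setup ρ S) {f : ML σ R} (Z : Finset σ) (a : σ → R)
    (h : ∀ z w, z ∈ LL ρ S → Grp ρ Z z w → f (Z.piecewise (fun _ => z) a) = 0) :
    ∀ x ∈ LL ρ S, f (Z.piecewise (fun _ => x) a) = 0 := by
  refine (deg_piecewise f Z a).vanish _ fun l hl hc => ?_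
  have h1 : ∃ w : H, (l.map (· + 1)).prod = ρ w := by
    clear hc
    induction l with
    | nil => exact ⟨1, by simp⟩
    | cons T l ih =>
      obtain ⟨w, hw⟩ := ih fun T hT => hl T (List.mem_cons_of_mem _ hT)
      obtain ⟨t, -, rfl⟩ := hl T List.mem_cons_self
      exact ⟨t * w, by simp [hw]⟩
  obtain ⟨w, hw⟩ := h1
  refine h l.sum w (list_sum_mem fun T hT => AddSubgroup.subset_closure (hl T hT))
    ⟨ρ w - 1, Or.inr rfl, fun f' hf' a' => ?_⟩
  rw [← hw]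
  refine hf'.bridge l (fun T hT => ?_) Z hc a'
  obtain ⟨t, ht, rfl⟩ := hl T hT
  exact Fz_two_of_sand (hs.sand t ht)

/-- `Z` is the block of the slot `α`. -/
def Blk (𝒵 : List (Finset σ)) (α : σ) (Z : Finset σ) : Prop :=
  α ∈ Z ∧ (Z ∈ 𝒵 ∨ (Z = {α} ∧ ∀ Z' ∈ 𝒵, α ∉ Z'))

lemma exists_blk (𝒵 : List (Finset σ)) (α : σ) : ∃ Z, Blk 𝒵 α Z := by
  by_cases h : ∃ Z ∈ 𝒵, α ∈ Z
  · obtain ⟨Z, h1, h2⟩ := h
    exact ⟨Z, h2, Or.inl h1⟩
  · push Not at h
    exact ⟨{α}, Finset.mem_singleton_self _, Or.inr ⟨rfl, h⟩⟩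

lemma pw_or {𝒵 : List (Finset σ)} (hp : 𝒵.Pairwise Disjoint) {Z Z' : Finset σ} (h : Z ∈ 𝒵)
    (h' : Z' ∈ 𝒵) : Z = Z' ∨ Disjoint Z Z' := by
  by_cases e : Z = Z'
  · exact Or.inl e
  · have : Std.Symm (Disjoint : Finset σ → Finset σ → Prop) := ⟨fun _ _ h => h.symm⟩
    exact Or.inr (hp.forall h h' e)

lemma Blk.or {𝒵 : List (Finset σ)} (hp : 𝒵.Pairwise Disjoint) {α β : σ} {Z Z' : Finset σ}
    (h : Blk 𝒵 α Z) (h' : Blk 𝒵 β Z') : Z = Z' ∨ Disjoint Z Z' := by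
  rcases h.2 with h1 | ⟨rfl, h1⟩ <;> rcases h'.2 with h2 | ⟨rfl, h2⟩
  · exact pw_or hp h1 h2
  · exact Or.inr (Finset.disjoint_singleton_right.2 (h2 Z h1))
  · exact Or.inr (Finset.disjoint_singleton_left.2 (h1 Z' h2))
  · by_cases e : α = β
    · exact Or.inl (by rw [e])
    · exact Or.inr (by simpa using e)

lemma Setup.red1 (hs : Setup ρ S) {f : ML σ R} {𝒵 : List (Finset σ)} (hp : 𝒵.Pairwise Disjoint)
    {α : σ} {Z : Finset σ} (hZ : Blk 𝒵 α Z) (a : σ → R) (ha : ∀ Z' ∈ 𝒵, Cst ρ S a Z')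
    (h : ∀ z w, Grp ρ Z z w → (∀ Z' ∈ 𝒵, Cst ρ S (Z.piecewise (fun _ => z) a) Z') →
      f (Z.piecewise (fun _ => z) a) = 0) : f a = 0 := by
  rcases hZ.2 with h1 | ⟨rfl, h1⟩
  · obtain ⟨x, hx, hax⟩ := ha Z h1
    have e : a = Z.piecewise (fun _ => x) a := by
      funext s
      by_cases hs : s ∈ Z <;> simp [Finset.piecewise, hs, hax]
    rw [e]
    refine hs.red0 Z a (fun z w hz hg => h z w hg fun Z' hZ' => ?_) x hx
    rcases pw_or hp h1 hZ' with rfl | hd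
    · exact ⟨z, hz, fun s hs => Finset.piecewise_eq_of_mem _ _ _ hs⟩
    · exact (ha Z' hZ').congr fun s hs =>
        Finset.piecewise_eq_of_notMem _ _ _ (Finset.disjoint_right.1 hd hs)
  · have key : ∀ r : R, f (update a α r) = 0 := by
      intro r
      induction hs.span r using AddSubgroup.closure_induction with
      | mem w hw =>
        obtain ⟨w, rfl⟩ := hw
        have := h (ρ w) w ⟨_, Or.inl rfl, fun _ _ _ => rfl⟩ fun Z' hZ' =>
          (ha Z' hZ').congr fun s hs => Finset.piecewise_eq_of_notMem _ _ _ (by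
            rw [Finset.mem_singleton]; rintro rfl; exact h1 Z' hZ' hs)
        rwa [Finset.piecewise_singleton] at this
      | zero => simp
      | add x y _ _ hx hy => rw [f.map_update_add, hx, hy, add_zero]
      | neg x _ hx => rw [f.map_update_neg, hx, neg_zero]
    simpa using key (a α)

/-- the slots `α`, `β` may be replaced by group elements. -/
def Red (ρ : H →* R) (a : σ → R) (α β : σ) (w u : H) : Prop :=
  ∃ a' : σ → R, (a' α = ρ w ∨ a' α = ρ w - 1) ∧ (a' β = ρ u ∨ a' β = ρ u - 1) ∧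
    ∀ f : ML σ R, WL f → f a = f a'

lemma Setup.red2 (hs : Setup ρ S) {f : ML σ R} {𝒵 : List (Finset σ)} (hp : 𝒵.Pairwise Disjoint)
    (α β : σ) (a : σ → R) (ha : ∀ Z' ∈ 𝒵, Cst ρ S a Z')
    (h : ∀ a' w u, (∀ Z' ∈ 𝒵, Cst ρ S a' Z') → Red ρ a' α β w u → f a' = 0) : f a = 0 := by
  obtain ⟨Z, hZ⟩ := exists_blk 𝒵 α
  obtain ⟨Z', hZ'⟩ := exists_blk 𝒵 β
  refine hs.red1 hp hZ a ha fun z w ⟨W, hW, hg⟩ ha1 => ?_
  rcases hZ.or hp hZ' with rfl | hd
  · refine h _ w w ha1 ⟨Z.piecewise (fun _ => W) a, ?_, ?_, fun f hf => hg f hf a⟩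
    · rwa [Finset.piecewise_eq_of_mem _ _ _ hZ.1]
    · rwa [Finset.piecewise_eq_of_mem _ _ _ hZ'.1]
  · refine hs.red1 hp hZ' _ ha1 fun z' u ⟨U, hU, hg'⟩ ha2 => ?_
    refine h _ w u ha2 ⟨Z.piecewise (fun _ => W) (Z'.piecewise (fun _ => U) a), ?_, ?_,
      fun f hf => ?_⟩
    · rwa [Finset.piecewise_eq_of_mem _ _ _ hZ.1]
    · rwa [Finset.piecewise_eq_of_notMem _ _ _ (Finset.disjoint_right.1 hd hZ'.1),
        Finset.piecewise_eq_of_mem _ _ _ hZ'.1]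
    · rw [hg' f hf, ← hg f hf]
      congr 1
      funext s
      by_cases h1 : s ∈ Z
      · simp [Finset.piecewise, h1, Finset.disjoint_left.1 hd h1]
      · simp [Finset.piecewise, h1]

lemma Red.zero {a : σ → R} {α β : σ} {w u g h : H} (hr : Red ρ a α β w u) {f : ML σ R}
    (hf : WL f) (hk : PK ρ f α β g h) (hc : Commute (g⁻¹ * w * g) (h⁻¹ * u * h)) : f a = 0 := by
  obtain ⟨a', h1, h2, h3⟩ := hr
  rw [h3 f hf]
  have hc' := hc.map ρ
  refine hk a' ?_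
  rcases h1 with h1 | h1 <;> rcases h2 with h2 | h2 <;>
    simp only [h1, h2, map_sub, cj_rho, cj_one']
  · exact hc'
  · exact hc'.sub_right (Commute.one_right _)
  · exact hc'.sub_left (Commute.one_left _)
  · exact (hc'.sub_right (Commute.one_right _)).sub_left (Commute.one_left _)

end

end Pool.Agent.Work.MP_21aa77_al
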