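import Pool.Agent.Work.MP_21aa77_al.Key
import Mathlib.Tactic.LinearCombination
import Mathlib.Tactic.Group
import Mathlib.RingTheory.Ideal.Quotient.Basic
import Mathlib.RingTheory.TwoSidedIdeal.Operations
import Mathlib.Algebra.BigOperators.Fin

/-! Identities for groups of exponent four acting on elementary abelian sections. -/

set_option autoImplicit false
set_option linter.unusedSectionVars false
set_option linter.unusedSimpArgs false

namespace Pool.Agent.Work.MP_21aa77_al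

open Finset Function

variable {H R : Type*} [Group H] [Ring R] {ρ : H →* R} {S : Set H}

lemma even_smul_zero (h2 : ∀ x : R, x + x = 0) (n : ℤ) (x : R) (hn : n % 2 = 0) : n • x = 0 := by
  obtain ⟨k, rfl⟩ : ∃ k, n = k + k := ⟨n / 2, by omega⟩
  rw [add_smul, h2]

/-- the action of a group of exponent four on an elementary abelian section. -/
structure Four (ρ : H →* R) : Prop where
  two : ∀ x : R, x + x = 0
  nrm : ∀ g : H, 1 + ρ g + ρ g * ρ g + ρ g⁻¹ = 0

lemma Four.cube (h : Four ρ) (g : H) : (ρ g - 1) * (ρ g - 1) * (ρ g - 1) = 0 := by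
  have h1 := h.nrm g
  have h2 : ρ g⁻¹ * ρ g = 1 := by rw [← map_mul, inv_mul_cancel, map_one]
  linear_combination (norm := skip) h1 * ρ g - h2
  noncomm_ring
  simp (disch := decide) only [even_smul_zero h.two, add_zero]

lemma Four.idB (h : Four ρ) (x g : H) :
    (ρ x - 1) * (ρ x - 1) * ρ g * (ρ x - 1) = (ρ x - 1) * ρ g * (ρ x - 1) * (ρ x - 1) := by
  have P : ∀ y : H, ρ g⁻¹ + ρ y + ρ y * ρ g * ρ y + ρ g⁻¹ * ρ y⁻¹ * ρ g⁻¹ = 0 := by
    intro y
    have := congrArg (· * ρ g⁻¹) (h.nrm (y * g))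
    simp only [add_mul, ← map_mul, one_mul, zero_mul] at this
    simp only [← map_mul]
    simpa only [mul_assoc, mul_inv_cancel, mul_one, mul_inv_rev] using this
  have p0 := P 1
  have p1 := P x
  have p2 := P (x * x)
  have p3 := P x⁻¹
  have n1 := h.nrm x
  have n2 := h.nrm x⁻¹
  simp only [map_one, inv_one, inv_inv, mul_inv_rev, map_mul] at p0 p1 p2 p3 n2
  have key : ρ g + ρ x * ρ g * ρ x + ρ x * ρ x * ρ g * (ρ x * ρ x) + ρ x⁻¹ * ρ g * ρ x⁻¹ = 0 := by
    linear_combination (norm := skip) p0 + p1 + p2 + p3 - n1 - ρ g⁻¹ * n2 * ρ g⁻¹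
    noncomm_ring
    simp (disch := decide) only [even_smul_zero h.two, add_zero]
  have hx : ρ x⁻¹ = 1 + ρ x + ρ x * ρ x := by
    linear_combination (norm := skip) n1
    noncomm_ring
    simp (disch := decide) only [even_smul_zero h.two, add_zero]
  rw [hx] at key
  obtain ⟨X, hX⟩ : ∃ X, ρ x = X + 1 := ⟨ρ x - 1, by simp⟩
  rw [hX] at key ⊢
  linear_combination (norm := skip) key
  noncomm_ring
  simp (disch := decide) only [even_smul_zero h.two, add_zero]

lemma Four.sq_sand (h : Four ρ) (x g : H) : (ρ (x * x) - 1) * ρ g * (ρ (x * x) - 1) = 0 := by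
  have e : ρ (x * x) - 1 = (ρ x - 1) * (ρ x - 1) := by
    rw [map_mul]
    linear_combination (norm := skip) h.two (ρ x - 1)
    noncomm_ring
  rw [e]
  linear_combination (norm := noncomm_ring) h.idB x g * (ρ x - 1) + (ρ x - 1) * ρ g * h.cube x

/-- symmetric sum of degree three. -/
def S3 (a b c : R) : R := a * b * c + a * c * b + b * a * c + b * c * a + c * a * b + c * b * a

/-- half-linearised cube. -/
def JJ (a y : R) : R := a * a * y + a * y * a + y * a * a

/-- the multilinear identity of degree four. -/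
def I4 (a b c d : R) : R :=
  S3 (a * b) c d + S3 b (a * c) d + S3 b c (a * d) + S3 a (b * c) d + S3 a c (b * d) +
    S3 a b (c * d)

lemma sand_rules {U : R} (hU : ∀ r, U * r * U = 0) :
    (U * U = 0) ∧ (∀ w, U * (U * w) = 0) ∧ (∀ a, U * (a * U) = 0) ∧
    (∀ a w, U * (a * (U * w)) = 0) ∧ (∀ a b, U * (a * (b * U)) = 0) ∧
    (∀ a b w, U * (a * (b * (U * w))) = 0) ∧ (∀ a b c, U * (a * (b * (c * U))) = 0) ∧
    (∀ a b c w, U * (a * (b * (c * (U * w)))) = 0) ∧
    (∀ a b c d, U * (a * (b * (c * (d * U)))) = 0) ∧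
    (∀ a b c d w, U * (a * (b * (c * (d * (U * w))))) = 0) := by
  have h : ∀ r w, U * (r * (U * w)) = 0 := fun r w => by
    rw [← mul_assoc, ← mul_assoc, hU, zero_mul]
  refine ⟨by simpa using h 1 1, fun w => by simpa using h 1 w, fun a => by simpa using h a 1,
    fun a w => h a w, fun a b => ?_, fun a b w => ?_, fun a b c => ?_, fun a b c w => ?_,
    fun a b c d => ?_, fun a b c d w => ?_⟩
  · simpa only [mul_assoc, mul_one] using h (a * b) 1
  · simpa only [mul_assoc, mul_one] using h (a * b) w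
  · simpa only [mul_assoc, mul_one] using h (a * b * c) 1
  · simpa only [mul_assoc, mul_one] using h (a * b * c) w
  · simpa only [mul_assoc, mul_one] using h (a * b * c * d) 1
  · simpa only [mul_assoc, mul_one] using h (a * b * c * d) w

lemma Setup.shift (hs : Setup ρ S) (g : H) {t : H} (ht : t ∈ S) :
    ∃ U, U = ρ g * (ρ t - 1) ∧ ρ (g * t) = ρ g + U ∧ ρ (g * t) - 1 = (ρ g - 1) + U ∧
      ∀ r, U * r * U = 0 := by
  refine ⟨_, rfl, by rw [map_mul]; noncomm_ring, by rw [map_mul]; noncomm_ring, fun r => ?_⟩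
  linear_combination (norm := noncomm_ring) ρ g * hs.sand t ht (r * ρ g)

lemma Four.st1 (h : Four ρ) (hs : Setup ρ S) (g : H) {t : H} (ht : t ∈ S) :
    JJ (ρ g - 1) (ρ g * (ρ t - 1)) = 0 := by
  obtain ⟨U, hU, -, e2, hUU⟩ := hs.shift g ht
  have h1 := h.cube (g * t)
  have h0 := h.cube g
  rw [e2] at h1
  rw [← hU]
  generalize ρ g - 1 = X at *
  obtain ⟨k0, k1, k2, k3, k4, k5, k6, k7, k8, k9⟩ := sand_rules hUU
  simp only [JJ, mul_add, add_mul, mul_assoc, k0, k1, k2, k3, k4, k5, k6, k7, k8, k9, mul_zero,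
    add_zero, zero_add] at h1 h0 ⊢
  linear_combination (norm := abel1) h1 - h0

lemma Four.st2 (h : Four ρ) (hs : Setup ρ S) (g : H) {t' t : H} (ht' : t' ∈ S) (ht : t ∈ S) :
    S3 (ρ g - 1) (ρ g * (ρ t' - 1)) (ρ g * (ρ t - 1)) +
      JJ (ρ g - 1) (ρ g * (ρ t' - 1) * (ρ t - 1)) = 0 := by
  obtain ⟨U, hU, e1, e2, hUU⟩ := hs.shift g ht'
  have h1 := h.st1 hs (g * t') ht
  have h0 := h.st1 hs g ht
  rw [e2, e1] at h1
  rw [← hU]
  generalize ρ g - 1 = X at *
  generalize ρ t - 1 = T at *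
  obtain ⟨k0, k1, k2, k3, k4, k5, k6, k7, k8, k9⟩ := sand_rules hUU
  simp only [JJ, S3, mul_add, add_mul, mul_assoc, k0, k1, k2, k3, k4, k5, k6, k7, k8, k9, mul_zero,
    add_zero, zero_add] at h1 h0 ⊢
  linear_combination (norm := abel1) h1 - h0

lemma Four.st3 (h : Four ρ) (hs : Setup ρ S) (g : H) {t'' t' t : H} (ht'' : t'' ∈ S)
    (ht' : t' ∈ S) (ht : t ∈ S) :
    S3 (ρ g * (ρ t'' - 1)) (ρ g * (ρ t' - 1)) (ρ g * (ρ t - 1)) +
      S3 (ρ g - 1) (ρ g * (ρ t'' - 1) * (ρ t' - 1)) (ρ g * (ρ t - 1)) +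
      S3 (ρ g - 1) (ρ g * (ρ t' - 1)) (ρ g * (ρ t'' - 1) * (ρ t - 1)) +
      S3 (ρ g - 1) (ρ g * (ρ t'' - 1)) (ρ g * (ρ t' - 1) * (ρ t - 1)) +
      JJ (ρ g - 1) (ρ g * (ρ t'' - 1) * (ρ t' - 1) * (ρ t - 1)) = 0 := by
  obtain ⟨U, hU, e1, e2, hUU⟩ := hs.shift g ht''
  have h1 := h.st2 hs (g * t'') ht' ht
  have h0 := h.st2 hs g ht' ht
  rw [e2, e1] at h1
  rw [← hU]
  generalize ρ g - 1 = X at *
  generalize ρ t - 1 = T at *
  generalize ρ t' - 1 = T' at *
  obtain ⟨k0, k1, k2, k3, k4, k5, k6, k7, k8, k9⟩ := sand_rules hUU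
  simp only [JJ, S3, mul_add, add_mul, mul_assoc, k0, k1, k2, k3, k4, k5, k6, k7, k8, k9, mul_zero,
    add_zero, zero_add] at h1 h0 ⊢
  linear_combination (norm := abel1) h1 - h0

lemma Four.st4 (h : Four ρ) (hs : Setup ρ S) {u t'' t' t : H} (hu : u ∈ S) (ht'' : t'' ∈ S)
    (ht' : t' ∈ S) (ht : t ∈ S) : I4 (ρ u - 1) (ρ t'' - 1) (ρ t' - 1) (ρ t - 1) = 0 := by
  have h1 := h.st3 hs u ht'' ht' ht
  have h0 := h.st3 hs 1 ht'' ht' ht
  have hUU := hs.sand u hu
  obtain ⟨U, hU⟩ : ∃ U, ρ u = 1 + U := ⟨ρ u - 1, by simp⟩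
  simp only [hU, map_one, add_sub_cancel_left, sub_self] at h1 h0 hUU ⊢
  generalize ρ t - 1 = T at *
  generalize ρ t' - 1 = T' at *
  generalize ρ t'' - 1 = T'' at *
  obtain ⟨k0, k1, k2, k3, k4, k5, k6, k7, k8, k9⟩ := sand_rules hUU
  simp only [I4, JJ, S3, mul_add, add_mul, mul_assoc, k0, k1, k2, k3, k4, k5, k6, k7, k8, k9,
    mul_zero, zero_mul, add_zero, zero_add, one_mul] at h1 h0 ⊢
  linear_combination (norm := abel1) h1 - h0

/-- additive statements pass from the generators to `LL`. -/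
lemma LL_ind (φ : R → R) (hφ : ∀ x y, φ (x + y) = φ x + φ y) (h : ∀ t ∈ S, φ (ρ t - 1) = 0) :
    ∀ x ∈ LL ρ S, φ x = 0 := by
  intro x hx
  have : LL ρ S ≤ (AddMonoidHom.mk' φ hφ).ker := by
    refine (AddSubgroup.closure_le _).2 ?_
    rintro _ ⟨t, ht, rfl⟩
    exact h t ht
  exact this hx

lemma Four.i4 (h : Four ρ) (hs : Setup ρ S) {a b c d : R} (ha : a ∈ LL ρ S) (hb : b ∈ LL ρ S)
    (hc : c ∈ LL ρ S) (hd : d ∈ LL ρ S) : I4 a b c d = 0 := by
  refine LL_ind (fun a => I4 a b c d) (fun x y => by simp only [I4, S3]; noncomm_ring)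
    (fun t1 h1 => ?_) a ha
  refine LL_ind (fun b => I4 _ b c d) (fun x y => by simp only [I4, S3]; noncomm_ring)
    (fun t2 h2 => ?_) b hb
  refine LL_ind (fun c => I4 _ _ c d) (fun x y => by simp only [I4, S3]; noncomm_ring)
    (fun t3 h3 => ?_) c hc
  exact LL_ind (fun d => I4 _ _ _ d) (fun x y => by simp only [I4, S3]; noncomm_ring)
    (fun t4 h4 => h.st4 hs h1 h2 h3 h4) d hd

lemma Setup.bridge_all (hs : Setup ρ S) {σ : Type} [Fintype σ] [DecidableEq σ] {f : ML σ R}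
    (hf : WL f) (Z : Finset σ) (a : σ → R)
    (h : ∀ w : H, f (Z.piecewise (fun _ => ρ w - 1) a) = 0) :
    ∀ x ∈ LL ρ S, f (Z.piecewise (fun _ => x) a) = 0 := by
  refine (deg_piecewise f Z a).vanish _ fun l hl hc => ?_
  have h1 : ∃ w : H, (l.map (· + 1)).prod = ρ w := by
    clear hc
    induction l with
    | nil => exact ⟨1, by simp⟩
    | cons T l ih =>
      obtain ⟨w, hw⟩ := ih fun T hT => hl T (List.mem_cons_of_mem _ hT)
      obtain ⟨t, -, rfl⟩ := hl T List.mem_cons_self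
      exact ⟨t * w, by simp [hw]⟩
  obtain ⟨w, hw⟩ := h1
  rw [hf.bridge l (fun T hT => ?_) Z hc a, hw, h]
  obtain ⟨t, ht, rfl⟩ := hl T hT
  exact Fz_two_of_sand (hs.sand t ht)

/-- the word `a₀ p a₁ q a₂`. -/
def w3 (p q : R) : ML (Fin 3) R :=
  ofAdd (fun a => a 0 * p * a 1 * q * a 2) (by
    intro a s x y
    fin_cases s <;> simp <;> noncomm_ring)

lemma w3_apply (p q : R) (a : Fin 3 → R) : w3 p q a = a 0 * p * a 1 * q * a 2 := rfl

lemma wl_w3 (p q : R) : WL (w3 p q) := by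
  intro z a m h
  rw [w3_apply, Fin.sum_univ_three]
  exact Fz_mul _ _ _ (Fz_right _ _ _ (Fz_mul _ _ _ (Fz_right _ _ _ (h 0)) (h 1))) (h 2)

lemma Four.cubeL (h : Four ρ) (hs : Setup ρ S) {a : R} (ha : a ∈ LL ρ S) : a * a * a = 0 := by
  have := hs.bridge_all (wl_w3 1 1) Finset.univ 0 (fun w => by
    simpa [w3_apply] using h.cube w) a ha
  simpa [w3_apply] using this

lemma Four.idBL (h : Four ρ) (hs : Setup ρ S) {a : R} (ha : a ∈ LL ρ S) (r : R) :
    a * a * r * a = a * r * a * a := by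
  have hw : WL (w3 1 r - w3 r 1) := fun z a m hm => sub_mem (wl_w3 _ _ z a m hm) (wl_w3 _ _ z a m hm)
  have := hs.bridge_all hw Finset.univ 0 (fun w => by
    simp only [Finset.piecewise_univ, sub_apply, w3_apply, mul_one, sub_eq_zero]
    clear hw
    induction hs.span r using AddSubgroup.closure_induction with
    | mem g hg => obtain ⟨g, rfl⟩ := hg; exact h.idB w g
    | zero => simp
    | add x y _ _ hx hy => simp only [mul_add, add_mul, hx, hy]
    | neg x _ hx => simp only [mul_neg, neg_mul, hx]) a ha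
  simpa [w3_apply, sub_eq_zero] using this

lemma Four.s3 (h : Four ρ) (hs : Setup ρ S) {a b c : R} (ha : a ∈ LL ρ S) (hb : b ∈ LL ρ S)
    (hc : c ∈ LL ρ S) : S3 a b c = 0 := by
  rw [S3]
  linear_combination (norm := noncomm_ring) h.cubeL hs (add_mem (add_mem ha hb) hc)
    - h.cubeL hs (add_mem ha hb) - h.cubeL hs (add_mem ha hc) - h.cubeL hs (add_mem hb hc)
    + h.cubeL hs ha + h.cubeL hs hb + h.cubeL hs hc

lemma Four.jj (h : Four ρ) (hs : Setup ρ S) {a y : R} (ha : a ∈ LL ρ S) (hy : y ∈ LL ρ S) :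
    JJ a y = 0 := by
  refine LL_ind (fun y => JJ a y) (fun x y => by simp only [JJ]; noncomm_ring)
    (fun t ht => ?_) y hy
  have hT : ρ t - 1 ∈ LL ρ S := AddSubgroup.subset_closure ⟨t, ht, rfl⟩
  have h1 := h.cubeL hs (add_mem ha hT)
  have h0 := h.cubeL hs ha
  obtain ⟨k0, k1, k2, k3, k4, k5, k6, k7, k8, k9⟩ := sand_rules (hs.sand t ht)
  generalize ρ t - 1 = T at *
  simp only [JJ, mul_add, add_mul, mul_assoc, k0, k1, k2, k3, k4, k5, k6, k7, k8, k9, mul_zero,
    add_zero, zero_add] at h1 h0 ⊢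
  linear_combination (norm := abel1) h1 - h0

lemma Four.idE (h : Four ρ) (hs : Setup ρ S) {a y : R} (ha : a ∈ LL ρ S) (hy : y ∈ LL ρ S)
    (r : R) : a * a * r * y + (a * y + y * a) * r * a - (y * r * a * a + a * r * (a * y + y * a))
      = 0 := by
  refine LL_ind (fun y => a * a * r * y + (a * y + y * a) * r * a -
    (y * r * a * a + a * r * (a * y + y * a))) (fun x y => by noncomm_ring) (fun t ht => ?_) y hy
  have hT : ρ t - 1 ∈ LL ρ S := AddSubgroup.subset_closure ⟨t, ht, rfl⟩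
  have h1 := h.idBL hs (add_mem ha hT) r
  have h0 := h.idBL hs ha r
  obtain ⟨k0, k1, k2, k3, k4, k5, k6, k7, k8, k9⟩ := sand_rules (hs.sand t ht)
  generalize ρ t - 1 = T at *
  simp only [mul_add, add_mul, mul_assoc, k0, k1, k2, k3, k4, k5, k6, k7, k8, k9, mul_zero,
    add_zero, zero_add] at h1 h0 ⊢
  linear_combination (norm := abel1) h1 - h0

lemma Setup.inv_eq (hs : Setup ρ S) {t : H} (ht : t ∈ S) : ρ t⁻¹ = 1 - (ρ t - 1) := by
  have h1 : ρ t⁻¹ * ρ t = 1 := by rw [← map_mul, inv_mul_cancel, map_one]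
  linear_combination (norm := noncomm_ring) ρ t⁻¹ * hs.sand t ht 1 + h1 * (1 - (ρ t - 1))

lemma Setup.lie_mem (hs : Setup ρ S) {a y : R} (ha : a ∈ LL ρ S) (hy : y ∈ LL ρ S) :
    a * y - y * a ∈ LL ρ S := by
  induction hy using AddSubgroup.closure_induction with
  | mem w hw =>
    obtain ⟨t, ht, rfl⟩ := hw
    have := sub_mem (hs.cj_mem t ha) ha
    convert this using 1
    rw [cj_apply, hs.inv_eq ht]
    linear_combination (norm := noncomm_ring) hs.sand t ht a
  | zero => simp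
  | add x y _ _ hx hy => convert add_mem hx hy using 1; noncomm_ring
  | neg x _ hx => convert neg_mem hx using 1; noncomm_ring

lemma Four.lie_mem (h : Four ρ) (hs : Setup ρ S) {a y : R} (ha : a ∈ LL ρ S) (hy : y ∈ LL ρ S) :
    a * y + y * a ∈ LL ρ S := by
  convert hs.lie_mem ha hy using 1
  linear_combination (norm := noncomm_ring) h.two (y * a)

end Pool.Agent.Work.MP_21aa77_al
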