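import Pool.Agent.Work.MP_21aa77_al.Exp4Ring
import Mathlib.RingTheory.Ideal.Quotient.Operations

/-! The symmetric Capelli identity of degree six in the exponent four case. -/

set_option autoImplicit false
set_option linter.unusedSectionVars false
set_option linter.unusedSimpArgs false

namespace Pool.Agent.Work.MP_21aa77_al

open Finset Function

variable {H R : Type*} [Group H] [Ring R] {ρ : H →* R} {S : Set H}

lemma Four.rel (h : Four ρ) (hs : Setup ρ S) {a : R} (ha : a ∈ LL ρ S) (P : R)
    (hA : ∀ w ∈ LL ρ S, w * a * P * a = 0)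
    (hB : ∀ w ∈ LL ρ S, ∀ u ∈ LL ρ S, w * a * u * P * a = 0) :
    (∀ p ∈ LL ρ S, ∀ q ∈ LL ρ S, ∀ u ∈ LL ρ S,
      a * (p * q + q * p) * u * P * a + p * a * q * u * P * a + q * a * p * u * P * a = 0) ∧
    (∀ x ∈ LL ρ S, ∀ y ∈ LL ρ S, ∀ z ∈ LL ρ S,
      x * a * y * z * P * a + y * a * x * z * P * a + z * a * x * y * P * a = 0) := by
  have F1 : ∀ p ∈ LL ρ S, ∀ q ∈ LL ρ S, ∀ u ∈ LL ρ S,
      a * (p * q + q * p) * u * P * a + p * a * q * u * P * a + q * a * p * u * P * a = 0 := by
    intro p hp q hq u hu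
    have h1 := h.s3 hs ha hp hq
    rw [S3] at h1
    linear_combination (norm := noncomm_ring) h1 * (u * P * a) - hB _ (h.lie_mem hs hp hq) u hu
  have F2 : ∀ p ∈ LL ρ S, ∀ q ∈ LL ρ S, a * (p * q + q * p) * P * a = 0 := by
    intro p hp q hq
    have h1 := h.s3 hs ha hp hq
    rw [S3] at h1
    linear_combination (norm := noncomm_ring) h1 * (P * a) - hA _ (h.lie_mem hs hp hq)
      - hB p hp q hq - hB q hq p hp
  refine ⟨F1, fun x hx y hy z hz => ?_⟩
  have h1 := h.i4 hs ha hx hy hz
  simp only [I4, S3] at h1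
  linear_combination (norm := skip) h1 * (P * a) + F1 x hx y hy z hz + F1 x hx z hz y hy
    + F1 y hy z hz x hx + F2 y hy _ (h.lie_mem hs hx hz) + z * hB y hy x hx + z * hB x hx y hy
    + y * hB x hx z hz + z * x * hA y hy + y * x * hA z hz + x * z * hA y hy + y * z * hA x hx
  noncomm_ring
  simp (disch := decide) only [even_smul_zero h.two, add_zero]

lemma Four.c1 (h : Four ρ) (hs : Setup ρ S) {a : R} (ha : a ∈ LL ρ S) (haa : a * a = 0)
    {y : R} (hy : y ∈ LL ρ S) : a * y * a = 0 := by
  have h1 := h.jj hs ha hy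
  rw [JJ] at h1
  linear_combination (norm := noncomm_ring) h1 - haa * y - y * haa

lemma Four.c2 (h : Four ρ) (hs : Setup ρ S) {a : R} (ha : a ∈ LL ρ S) (haa : a * a = 0)
    {w y z : R} (hw : w ∈ LL ρ S) (hy : y ∈ LL ρ S) (hz : z ∈ LL ρ S) :
    w * a * y * z * a = 0 := by
  obtain ⟨F1, F3⟩ := h.rel hs ha 1 (fun w _ => by rw [mul_one, mul_assoc, haa, mul_zero])
    (fun w _ u hu => by
      linear_combination (norm := noncomm_ring) w * h.c1 hs ha haa hu)
  simp only [mul_one] at F1 F3
  have E : ∀ y ∈ LL ρ S, ∀ r : R,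
      a * (y * r + r * y) * a + y * a * r * a + a * r * a * y = 0 := by
    intro y hy r
    linear_combination (norm := skip) h.idE hs ha hy r + haa * (r * y) + y * r * haa
    noncomm_ring
    simp (disch := decide) only [even_smul_zero h.two, add_zero]
  have G1 : ∀ p ∈ LL ρ S, ∀ q ∈ LL ρ S, ∀ y ∈ LL ρ S, a * p * q * a * y = 0 := by
    intro p hp q hq y hy
    linear_combination (norm := skip) E y hy (p * q) + F1 y hy p hp q hq + F1 y hy q hq p hp
      + h.c1 hs ha haa (h.lie_mem hs hp (h.lie_mem hs hy hq)) + F3 y hy p hp q hq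
      + y * h.c1 hs ha haa (h.lie_mem hs hp hq)
    noncomm_ring
    simp (disch := decide) only [even_smul_zero h.two, add_zero]
  have G2 : ∀ p ∈ LL ρ S, ∀ q ∈ LL ρ S, ∀ u ∈ LL ρ S,
      p * a * q * u * a + q * a * p * u * a = 0 := by
    intro p hp q hq u hu
    have h1 := h.s3 hs ha hp hq
    rw [S3] at h1
    linear_combination (norm := skip) a * u * h1 + G1 u hu p hp q hq + G1 u hu q hq p hp
      + h.c1 hs ha haa hu * (p * q + q * p) + F1 p hp q hq u hu
      + h.c1 hs ha haa (h.lie_mem hs hu (h.lie_mem hs hp hq))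
    noncomm_ring
    simp (disch := decide) only [even_smul_zero h.two, add_zero]
  linear_combination (norm := skip) F3 y hy z hz w hw + G2 y hy z hz w hw
  noncomm_ring
  simp (disch := decide) only [even_smul_zero h.two, add_zero]

lemma Four.cm (h : Four ρ) (hs : Setup ρ S) {a : R} (ha : a ∈ LL ρ S) (haa : a * a = 0) (m : ℕ) :
    ∀ N : List R, N.length ≤ m → (∀ y ∈ N, y ∈ LL ρ S) → ∀ w ∈ LL ρ S, w * a * N.prod * a = 0 := by
  induction m with
  | zero =>
    intro N hN _ w _
    rw [List.length_eq_zero_iff.1 (Nat.le_zero.1 hN), List.prod_nil, mul_one, mul_assoc, haa,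
      mul_zero]
  | succ m ih =>
    intro N hN hL w hw
    match N, hN, hL with
    | [], _, _ => exact ih [] (by simp) (by simp) w hw
    | [y], _, hL =>
      simp only [List.prod_cons, List.prod_nil, mul_one]
      linear_combination (norm := noncomm_ring) w * h.c1 hs ha haa (hL y (by simp))
    | [y, z], _, hL =>
      simp only [List.prod_cons, List.prod_nil, mul_one]
      linear_combination (norm := noncomm_ring)
        h.c2 hs ha haa hw (hL y (by simp)) (hL z (by simp))
    | y :: z :: v :: Y, hN, hL =>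
      simp only [List.length_cons] at hN
      have hy := hL y (by simp)
      have hz := hL z (by simp)
      have hv := hL v (by simp)
      have hY : ∀ u ∈ Y, u ∈ LL ρ S := fun u hu => hL u (by simp [hu])
      have i1 : ∀ w ∈ LL ρ S, ∀ p ∈ LL ρ S, w * a * (p * Y.prod) * a = 0 := fun w hw p hp => by
        simpa using ih (p :: Y) (by simp; omega) (by simpa [hp] using hY) w hw
      have i2 : ∀ w ∈ LL ρ S, ∀ p ∈ LL ρ S, ∀ q ∈ LL ρ S, w * a * p * (q * Y.prod) * a = 0 :=
        fun w hw p hp q hq => by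
          simpa [mul_assoc] using ih (p :: q :: Y) (by simp; omega) (by simpa [hp, hq] using hY) w hw
      have r : ∀ u ∈ LL ρ S, ∀ x ∈ LL ρ S, ∀ y ∈ LL ρ S, ∀ z ∈ LL ρ S,
          x * a * y * z * (u * Y.prod) * a + y * a * x * z * (u * Y.prod) * a +
            z * a * x * y * (u * Y.prod) * a = 0 := fun u hu =>
        (h.rel hs ha (u * Y.prod) (fun w hw => i1 w hw u hu)
          (fun w hw p hp => i2 w hw p hp u hu)).2
      have s1 : ∀ w ∈ LL ρ S, ∀ p ∈ LL ρ S, ∀ q ∈ LL ρ S, ∀ u ∈ LL ρ S,
          w * a * p * q * u * Y.prod * a + w * a * q * p * u * Y.prod * a = 0 :=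
        fun w hw p hp q hq u hu => by
          linear_combination (norm := noncomm_ring) i2 w hw _ (h.lie_mem hs hp hq) u hu
      have s2 : ∀ w ∈ LL ρ S, ∀ p ∈ LL ρ S, ∀ q ∈ LL ρ S, ∀ u ∈ LL ρ S,
          w * a * p * q * u * Y.prod * a + w * a * p * u * q * Y.prod * a = 0 :=
        fun w hw p hp q hq u hu => by
          linear_combination (norm := noncomm_ring) i2 w hw p hp _ (h.lie_mem hs hq hu)
      simp only [List.prod_cons]
      linear_combination (norm := skip) r v hv w hw y hy z hz + r z hz w hw y hy v hv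
        + r y hy w hw z hz v hv + s2 w hw y hy z hz v hv + s2 w hw z hz v hv y hy
        + s1 w hw z hz y hy v hv + s2 y hy w hw z hz v hv + s2 z hz w hw y hy v hv
        + s2 v hv w hw y hy z hz
      noncomm_ring
      simp (disch := decide) only [even_smul_zero h.two, add_zero]

lemma Setup.words (hs : Setup ρ S) (r : R) :
    r ∈ AddSubgroup.closure {x | ∃ N : List R, (∀ y ∈ N, y ∈ LL ρ S) ∧ x = N.prod} := by
  set M := AddSubgroup.closure {x | ∃ N : List R, (∀ y ∈ N, y ∈ LL ρ S) ∧ x = N.prod} with hM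
  have h1 : (1 : R) ∈ M := AddSubgroup.subset_closure ⟨[], by simp, rfl⟩
  have hL : ∀ y ∈ LL ρ S, ∀ x ∈ M, y * x ∈ M := by
    intro y hy x hx
    induction hx using AddSubgroup.closure_induction with
    | mem w hw =>
      obtain ⟨N, hN, rfl⟩ := hw
      exact AddSubgroup.subset_closure ⟨y :: N, by simpa [hy] using hN, by simp⟩
    | zero => simp
    | add x y _ _ hx hy => rw [mul_add]; exact add_mem hx hy
    | neg x _ hx => rw [mul_neg]; exact neg_mem hx
  have hg : ∀ g : H, ∀ x ∈ M, ρ g * x ∈ M := by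
    intro g
    have hg : g ∈ Subgroup.closure S := hs.gen ▸ Subgroup.mem_top g
    induction hg using Subgroup.closure_induction'' with
    | mem t ht =>
      intro x hx
      convert add_mem hx (hL _ (AddSubgroup.subset_closure ⟨t, ht, rfl⟩) x hx) using 1
      noncomm_ring
    | inv_mem t ht =>
      intro x hx
      convert sub_mem hx (hL _ (AddSubgroup.subset_closure ⟨t, ht, rfl⟩) x hx) using 1
      rw [hs.inv_eq ht]
      noncomm_ring
    | one => intro x hx; simpa using hx
    | mul k l _ _ ihk ihl => intro x hx; rw [map_mul, mul_assoc]; exact ihk _ (ihl x hx)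
  refine (AddSubgroup.closure_le M).2 ?_ (hs.span r)
  rintro _ ⟨g, rfl⟩
  simpa using hg g 1 h1

lemma Four.c3 (h : Four ρ) (hs : Setup ρ S) {a : R} (ha : a ∈ LL ρ S) (haa : a * a = 0)
    (r s : R) : a * r * a * s * a = 0 := by
  have h1 : ∀ w ∈ LL ρ S, w * a * s * a = 0 := by
    intro w hw
    induction hs.words s using AddSubgroup.closure_induction with
    | mem x hx => obtain ⟨N, hN, rfl⟩ := hx; exact h.cm hs ha haa _ N le_rfl hN w hw
    | zero => simp
    | add x y _ _ hx hy => rw [mul_add, add_mul, hx, hy, add_zero]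
    | neg x _ hx => rw [mul_neg, neg_mul, hx, neg_zero]
  induction hs.words r using AddSubgroup.closure_induction with
  | mem x hx =>
    obtain ⟨N, hN, rfl⟩ := hx
    rcases List.eq_nil_or_concat N with rfl | ⟨N, w, rfl⟩
    · simp [haa]
    · rw [List.prod_concat]
      linear_combination (norm := noncomm_ring) a * N.prod * h1 w (hN w (by simp))
  | zero => simp
  | add x y _ _ hx hy => rw [mul_add, add_mul, add_mul, add_mul, hx, hy, add_zero]
  | neg x _ hx => rw [mul_neg, neg_mul, neg_mul, neg_mul, hx, neg_zero]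

lemma Fz_split (z : R) (m k : ℕ) (I : AddSubgroup R)
    (h : ∀ u ∈ Fz z m, ∀ v ∈ Fz z k, u * v ∈ I) : Fz z (m + k) ≤ I := by
  induction m generalizing I with
  | zero => intro v hv; rw [Nat.zero_add] at hv; simpa using h 1 trivial v hv
  | succ m ih =>
    rw [Nat.add_right_comm]
    refine (AddSubgroup.closure_le _).2 ?_
    rintro _ ⟨r, w, hw, rfl⟩
    refine ih (I.comap (AddMonoidHom.mulLeft (r * z))) (fun u hu v hv => ?_) hw
    have := h (r * z * u) (AddSubgroup.subset_closure ⟨r, u, hu, rfl⟩) v hv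
    simpa [mul_assoc] using this

lemma Fz_three {a : R} (h : ∀ r s, a * r * a * s * a = 0) : Fz a 3 = ⊥ := by
  have h1 : ∀ r, ∀ u ∈ Fz a 1, a * r * a * u = 0 := by
    intro r u hu
    induction hu using AddSubgroup.closure_induction with
    | mem w hw =>
      obtain ⟨s, u, -, rfl⟩ := hw
      linear_combination (norm := noncomm_ring) h r s * u
    | zero => simp
    | add x y _ _ hx hy => rw [mul_add, hx, hy, add_zero]
    | neg x _ hx => rw [mul_neg, hx, neg_zero]
  have h2 : ∀ u ∈ Fz a 2, a * u = 0 := by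
    intro u hu
    induction hu using AddSubgroup.closure_induction with
    | mem w hw =>
      obtain ⟨s, u, hu, rfl⟩ := hw
      linear_combination (norm := noncomm_ring) h1 s u hu
    | zero => simp
    | add x y _ _ hx hy => rw [mul_add, hx, hy, add_zero]
    | neg x _ hx => rw [mul_neg, hx, neg_zero]
  refine le_bot_iff.1 ((AddSubgroup.closure_le _).2 ?_)
  rintro _ ⟨r, u, hu, rfl⟩
  simp [mul_assoc, h2 u hu]

lemma Fz_map {Q : Type*} [Ring Q] (π : R →+* Q) (z : R) (m : ℕ) {x : R} (hx : x ∈ Fz z m) :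
    π x ∈ Fz (π z) m := by
  induction m generalizing x with
  | zero => trivial
  | succ m ih =>
    induction hx using AddSubgroup.closure_induction with
    | mem w hw =>
      obtain ⟨r, u, hu, rfl⟩ := hw
      exact AddSubgroup.subset_closure ⟨π r, π u, ih hu, by simp⟩
    | zero => simp
    | add x y _ _ hx hy => rw [map_add]; exact add_mem hx hy
    | neg x _ hx => rw [map_neg]; exact neg_mem hx

lemma Four.sc (h : Four ρ) (hs : Setup ρ S) {a : R} (ha : a ∈ LL ρ S) : Fz a 6 = ⊥ := by
  let J : Ideal R :=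
    { carrier := Fz (a * a) 1
      add_mem' := fun hx hy => add_mem hx hy
      zero_mem' := zero_mem _
      smul_mem' := fun r x hx => Fz_left _ _ r hx }
  have : J.IsTwoSided := ⟨fun r hx => Fz_right _ _ r hx⟩
  let π := Ideal.Quotient.mk J
  let ρ' : H →* R ⧸ J := (π : R →* R ⧸ J).comp ρ
  have hπ : Surjective π := Ideal.Quotient.mk_surjective
  have hs' : Setup ρ' S := by
    refine ⟨fun r => ?_, hs.conj, hs.gen, fun t ht r => ?_, hs.p2⟩
    · obtain ⟨r, rfl⟩ := hπ r
      induction hs.span r using AddSubgroup.closure_induction with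
      | mem g hg => obtain ⟨g, rfl⟩ := hg; exact AddSubgroup.subset_closure ⟨g, rfl⟩
      | zero => simp
      | add x y _ _ hx hy => rw [map_add]; exact add_mem hx hy
      | neg x _ hx => rw [map_neg]; exact neg_mem hx
    · obtain ⟨r, rfl⟩ := hπ r
      simpa [ρ'] using congrArg π (hs.sand t ht r)
  have h' : Four ρ' := by
    refine ⟨fun r => ?_, fun g => ?_⟩
    · obtain ⟨r, rfl⟩ := hπ r
      simpa using congrArg π (h.two r)
    · simpa [ρ'] using congrArg π (h.nrm g)
  have ha' : ∀ x ∈ LL ρ S, π x ∈ LL ρ' S := by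
    intro x hx
    induction hx using AddSubgroup.closure_induction with
    | mem w hw =>
      obtain ⟨t, ht, rfl⟩ := hw
      exact AddSubgroup.subset_closure ⟨t, ht, by simp [ρ']⟩
    | zero => simp
    | add x y _ _ hx hy => rw [map_add]; exact add_mem hx hy
    | neg x _ hx => rw [map_neg]; exact neg_mem hx
  have haa : π a * π a = 0 := by
    rw [← map_mul]
    exact Ideal.Quotient.eq_zero_iff_mem.2 (self_mem_Fz _)
  have h3 : Fz a 3 ≤ Fz (a * a) 1 := by
    intro x hx
    have := Fz_map π a 3 hx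
    rw [Fz_three (h'.c3 hs' (ha' a ha) haa), AddSubgroup.mem_bot] at this
    exact Ideal.Quotient.eq_zero_iff_mem.1 this
  have h2 : Fz (a * a) 2 = ⊥ := Fz_two_of_sand fun r => by
    linear_combination (norm := noncomm_ring) h.idBL hs ha r * a + a * r * h.cubeL hs ha
  refine le_bot_iff.1 (Fz_split a 3 3 ⊥ fun u hu v hv => ?_)
  rw [← h2]
  exact Fz_mul _ 1 1 (h3 hu) (h3 hv)

theorem Four.comm (h : Four ρ) (hs : Setup ρ S) (x y : H) : Commute (ρ x) (ρ y) := by
  refine ring_core hs 6 (fun σ _ _ f hf a Z hZ ⟨x, hx, hax⟩ => ?_) x y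
  have := hf.set x a Z fun s hs => by rw [hax s hs]; exact self_mem_Fz x
  rwa [hZ, h.sc hs hx, AddSubgroup.mem_bot] at this

theorem Setup.comm_of_bdd (hs : Setup ρ S) (n : ℕ) (hn : ∀ w : H, Fz (ρ w - 1) n = ⊥)
    (x y : H) : Commute (ρ x) (ρ y) := by
  refine ring_core hs n (fun σ _ _ f hf a Z hZ ⟨x, hx, hax⟩ => ?_) x y
  have e : a = Z.piecewise (fun _ => x) a := by
    funext s
    by_cases hs : s ∈ Z <;> simp [Finset.piecewise, hs, hax]
  rw [e]
  refine hs.bridge_all hf Z a (fun w => ?_) x hx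
  have := hf.set (ρ w - 1) (Z.piecewise (fun _ => ρ w - 1) a) Z fun s hs => by
    rw [Finset.piecewise_eq_of_mem _ _ _ hs]; exact self_mem_Fz _
  rwa [hZ, hn, AddSubgroup.mem_bot] at this

end Pool.Agent.Work.MP_21aa77_al
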