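import Mathlib.LinearAlgebra.Multilinear.Basic
import Mathlib.Algebra.Group.Subgroup.Lattice
import Mathlib.Tactic.NoncommRing
import Mathlib.Tactic.Abel

/-! Filtration of a ring by powers of a principal two-sided ideal, word-like multilinear maps,
and the passage from sums of sandwiches to group elements. -/

set_option autoImplicit false

namespace Pool.Agent.Work.MP_21aa77_al

open Finset Function

variable {R : Type*} [Ring R]

/-- `Fz z m` is the `m`-th power of the two-sided ideal generated by `z`. -/
def Fz (z : R) : ℕ → AddSubgroup R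
  | 0 => ⊤
  | m + 1 => AddSubgroup.closure {w | ∃ r u, u ∈ Fz z m ∧ w = r * z * u}

lemma Fz_left (z : R) (m : ℕ) (r : R) {u : R} (hu : u ∈ Fz z m) : r * u ∈ Fz z m := by
  cases m with
  | zero => trivial
  | succ m =>
    induction hu using AddSubgroup.closure_induction with
    | mem w hw =>
      obtain ⟨r', u, hu, rfl⟩ := hw
      exact AddSubgroup.subset_closure ⟨r * r', u, hu, by simp only [mul_assoc]⟩
    | zero => simp
    | add x y _ _ hx hy => rw [mul_add]; exact add_mem hx hy
    | neg x _ hx => rw [mul_neg]; exact neg_mem hx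

lemma Fz_mul (z : R) (m k : ℕ) {u v : R} (hu : u ∈ Fz z m) (hv : v ∈ Fz z k) :
    u * v ∈ Fz z (m + k) := by
  induction m generalizing u with
  | zero => rw [Nat.zero_add]; exact Fz_left z k u hv
  | succ m ih =>
    rw [Nat.add_right_comm]
    induction hu using AddSubgroup.closure_induction with
    | mem w hw =>
      obtain ⟨r', u, hu, rfl⟩ := hw
      exact AddSubgroup.subset_closure ⟨r', u * v, ih hu, by simp only [mul_assoc]⟩
    | zero => simp
    | add x y _ _ hx hy => rw [add_mul]; exact add_mem hx hy
    | neg x _ hx => rw [neg_mul]; exact neg_mem hx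

lemma Fz_right (z : R) (m : ℕ) (r : R) {u : R} (hu : u ∈ Fz z m) : u * r ∈ Fz z m :=
  Fz_mul z m 0 hu (show r ∈ Fz z 0 from trivial)

lemma self_mem_Fz (z : R) : z ∈ Fz z 1 :=
  AddSubgroup.subset_closure ⟨1, 1, trivial, by simp⟩

lemma Fz_succ_le (z : R) (m : ℕ) : Fz z (m + 1) ≤ Fz z m := by
  refine (AddSubgroup.closure_le _).2 ?_
  rintro w ⟨r, u, hu, rfl⟩
  exact Fz_left z m _ hu

lemma Fz_anti (z : R) : Antitone (Fz z) := antitone_nat_of_succ_le (Fz_succ_le z)

lemma Fz_two_of_sand {T : R} (hT : ∀ r, T * r * T = 0) : Fz T 2 = ⊥ := by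
  refine le_bot_iff.1 ((AddSubgroup.closure_le _).2 ?_)
  rintro w ⟨r, u, hu, rfl⟩
  have : T * u = 0 := by
    induction hu using AddSubgroup.closure_induction with
    | mem w hw =>
      obtain ⟨r', u, _, rfl⟩ := hw
      rw [← mul_assoc, ← mul_assoc, hT, zero_mul]
    | zero => simp
    | add x y _ _ hx hy => rw [mul_add, hx, hy, add_zero]
    | neg x _ hx => rw [mul_neg, hx, neg_zero]
  simp [mul_assoc, this]

/-- Multilinear maps with all slots in `R`. -/
abbrev ML (σ : Type) (R : Type*) [Ring R] := MultilinearMap ℤ (fun _ : σ => R) R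

variable {σ : Type} [Fintype σ] [DecidableEq σ]

/-- Word-like maps: they respect all the filtrations `Fz z`. -/
def WL (f : ML σ R) : Prop :=
  ∀ (z : R) (a : σ → R) (m : σ → ℕ), (∀ s, a s ∈ Fz z (m s)) → f a ∈ Fz z (∑ s, m s)

lemma WL.set {f : ML σ R} (hf : WL f) (z : R) (a : σ → R) (Z : Finset σ)
    (h : ∀ s ∈ Z, a s ∈ Fz z 1) : f a ∈ Fz z Z.card := by
  have := hf z a (fun s => if s ∈ Z then 1 else 0) (fun s => by
    by_cases hs : s ∈ Z
    · simpa [hs] using h s hs
    · simp only [hs, if_false]; trivial)
  simpa using this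

lemma WL.zero_of_two {f : ML σ R} (hf : WL f) {T : R} (hT : Fz T 2 = ⊥) (a : σ → R)
    (Z : Finset σ) (hZ : 2 ≤ Z.card) (h : ∀ s ∈ Z, a s ∈ Fz T 1) : f a = 0 := by
  have := Fz_anti T hZ (hf.set T a Z h)
  rwa [hT, AddSubgroup.mem_bot] at this

lemma WL.exp1 {f : ML σ R} (hf : WL f) {T : R} (hT : Fz T 2 = ⊥) (a h : σ → R)
    (hh : ∀ s, h s ∈ Fz T 1) : f (a + h) = f a + ∑ s, f (update a s (h s)) := by
  rw [f.map_add_eq_map_add_linearDeriv_add, MultilinearMap.linearDeriv_apply,
    Finset.sum_eq_zero (s := Finset.univ.filter _), add_zero]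
  intro S hS
  refine hf.zero_of_two hT _ S (by simpa using hS) fun s hs => ?_
  rw [Finset.piecewise_eq_of_mem _ _ _ hs]
  exact hh s

/-- expansion when a sandwich-ideal element is added on the slots of `Z`. -/
lemma WL.exp2 {f : ML σ R} (hf : WL f) {T : R} (hT : Fz T 2 = ⊥) (a : σ → R) (Z : Finset σ)
    (b c : σ → R) (hb : ∀ s ∈ Z, b s ∈ Fz T 1) :
    f (Z.piecewise (c + b) a) =
      f (Z.piecewise c a) + ∑ s ∈ Z, f (update (Z.piecewise c a) s (b s)) := by
  have e : Z.piecewise (c + b) a = Z.piecewise c a + Z.piecewise b 0 := by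
    funext s
    by_cases hs : s ∈ Z <;> simp [Finset.piecewise, hs]
  rw [e, hf.exp1 hT]
  · congr 1
    rw [← Finset.sum_subset (Finset.subset_univ Z)]
    · refine Finset.sum_congr rfl fun s hs => ?_
      rw [Finset.piecewise_eq_of_mem _ _ _ hs]
    · intro s _ hs
      rw [Finset.piecewise_eq_of_notMem _ _ _ hs]
      simp
  · intro s
    by_cases hs : s ∈ Z
    · rw [Finset.piecewise_eq_of_mem _ _ _ hs]; exact hb s hs
    · rw [Finset.piecewise_eq_of_notMem _ _ _ hs]; exact zero_mem _

/-- The sum of the ideals generated by the members of a list. -/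
def Jl : List R → AddSubgroup R
  | [] => ⊥
  | T :: l => Fz T 1 ⊔ Jl l

lemma Jl_left (l : List R) (r : R) {u : R} (hu : u ∈ Jl l) : r * u ∈ Jl l := by
  induction l generalizing u with
  | nil => rw [Jl, AddSubgroup.mem_bot] at *; simp [hu]
  | cons T l ih =>
    obtain ⟨b, hb, c, hc, rfl⟩ := AddSubgroup.mem_sup.1 hu
    rw [mul_add]
    exact add_mem (AddSubgroup.mem_sup_left (Fz_left _ _ _ hb)) (AddSubgroup.mem_sup_right (ih hc))

lemma sum_mem_Jl (l : List R) : l.sum ∈ Jl l := by
  induction l with
  | nil => simp [Jl]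
  | cons T l ih =>
    rw [List.sum_cons]
    exact add_mem (AddSubgroup.mem_sup_left (self_mem_Fz T)) (AddSubgroup.mem_sup_right ih)

lemma prod_mem_Jl (l : List R) : (l.map (· + 1)).prod - 1 ∈ Jl l := by
  induction l with
  | nil => simp [Jl]
  | cons T l ih =>
    rw [List.map_cons, List.prod_cons]
    have : (T + 1) * (l.map (· + 1)).prod - 1 =
        T * (l.map (· + 1)).prod + ((l.map (· + 1)).prod - 1) := by noncomm_ring
    rw [this]
    exact add_mem (AddSubgroup.mem_sup_left (Fz_right _ _ _ (self_mem_Fz T)))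
      (AddSubgroup.mem_sup_right ih)

omit [Ring R] [Fintype σ] in
lemma update_piecewise_eq (Z : Finset σ) (c a : σ → R) (s : σ) (x : R) :
    update (Z.piecewise c a) s x = (Z.erase s).piecewise c (update a s x) := by
  funext t
  by_cases ht : t = s
  · subst ht; simp [Finset.piecewise]
  · by_cases hZ : t ∈ Z <;> simp [Finset.piecewise, ht, hZ]

/-- pigeonhole: too few sandwiches for the slots of `Z`. -/
lemma WL.zero_of_few {f : ML σ R} (hf : WL f) (l : List R) (hl : ∀ T ∈ l, Fz T 2 = ⊥)
    (Z : Finset σ) (hZ : l.length < Z.card) (a : σ → R) (ha : ∀ s ∈ Z, a s ∈ Jl l) :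
    f a = 0 := by
  induction l generalizing Z a with
  | nil =>
    obtain ⟨s, hs⟩ := Finset.card_pos.1 hZ
    exact f.map_coord_zero s (by simpa [Jl] using ha s hs)
  | cons T l ih =>
    have ih' := ih (fun T hT => hl T (List.mem_cons_of_mem _ hT))
    have h1 : ∀ s, ∃ b c : R, s ∈ Z → b ∈ Fz T 1 ∧ c ∈ Jl l ∧ a s = c + b := by
      intro s
      by_cases hs : s ∈ Z
      · obtain ⟨b, hb, c, hc, e⟩ := AddSubgroup.mem_sup.1 (ha s hs)
        exact ⟨b, c, fun _ => ⟨hb, hc, by rw [← e, add_comm]⟩⟩
      · exact ⟨0, 0, fun h => absurd h hs⟩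
    choose b c hbc using h1
    have e : a = Z.piecewise (c + b) a := by
      funext s
      by_cases hs : s ∈ Z
      · rw [Finset.piecewise_eq_of_mem _ _ _ hs]; exact (hbc s hs).2.2
      · rw [Finset.piecewise_eq_of_notMem _ _ _ hs]
    simp only [List.length_cons] at hZ
    rw [e, hf.exp2 (hl T List.mem_cons_self) a Z b c fun s hs => (hbc s hs).1,
      ih' Z (by omega), zero_add]
    · refine Finset.sum_eq_zero fun s hs => ?_
      rw [update_piecewise_eq]
      refine ih' (Z.erase s) (by rw [Finset.card_erase_of_mem hs]; omega) _ fun t ht => ?_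
      rw [Finset.piecewise_eq_of_mem _ _ _ ht]
      exact (hbc t (Finset.mem_of_mem_erase ht)).2.1
    · intro s hs
      rw [Finset.piecewise_eq_of_mem _ _ _ hs]
      exact (hbc s hs).2.1

/-- On few sandwiches the sum may be replaced by the product. -/
lemma WL.bridge {f : ML σ R} (hf : WL f) (l : List R) (hl : ∀ T ∈ l, Fz T 2 = ⊥)
    (Z : Finset σ) (hZ : l.length ≤ Z.card) (a : σ → R) :
    f (Z.piecewise (fun _ => l.sum) a) =
      f (Z.piecewise (fun _ => (l.map (· + 1)).prod - 1) a) := by
  induction l generalizing Z a with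
  | nil => simp
  | cons T l ih =>
    have hl' : ∀ T ∈ l, Fz T 2 = ⊥ := fun T hT => hl T (List.mem_cons_of_mem _ hT)
    have ih' := ih hl'
    have hT := hl T List.mem_cons_self
    simp only [List.length_cons] at hZ
    set X := (l.map (· + 1)).prod - 1 with hX
    have hXm : X ∈ Jl l := prod_mem_Jl l
    have e1 : (fun _ : σ => (T :: l).sum) = (fun _ => l.sum) + fun _ => T := by
      funext s; simp [add_comm]
    have e2 : (fun _ : σ => ((T :: l).map (· + 1)).prod - 1) =
        (fun _ => X) + fun _ => T + T * X := by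
      funext s
      simp only [List.map_cons, List.prod_cons, Pi.add_apply, hX]
      noncomm_ring
    rw [e1, e2, hf.exp2 hT a Z _ _ fun s _ => self_mem_Fz T,
      hf.exp2 hT a Z _ _ fun s _ => add_mem (self_mem_Fz T) (Fz_right _ _ _ (self_mem_Fz T)),
      hf.zero_of_few l hl' Z (by omega), hf.zero_of_few l hl' Z (by omega) (Z.piecewise _ a)]
    · congr 1
      refine Finset.sum_congr rfl fun s hs => ?_
      rw [f.map_update_add, hf.zero_of_few l hl' Z (by omega) (update _ s (T * X)), add_zero,
        update_piecewise_eq, update_piecewise_eq]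
      · exact ih' _ (by rw [Finset.card_erase_of_mem hs]; omega) _
      · intro t ht
        by_cases hts : t = s
        · subst hts; rw [update_self]; exact Jl_left l T hXm
        · rw [update_of_ne hts, Finset.piecewise_eq_of_mem _ _ _ ht]; exact hXm
    · intro s hs; rw [Finset.piecewise_eq_of_mem _ _ _ hs]; exact hXm
    · intro s hs; rw [Finset.piecewise_eq_of_mem _ _ _ hs]; exact sum_mem_Jl l

/-- Functions of degree at most `d` in the sense of finite differences. -/
def Deg : ℕ → (R → R) → Prop
  | 0, p => ∀ x, p x = p 0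
  | d + 1, p => ∀ y, Deg d fun x => p (x + y) - p x

lemma Deg.zero (d : ℕ) : Deg d (fun _ : R => 0) := by
  induction d with
  | zero => intro x; rfl
  | succ d ih => intro y; simpa using ih

lemma Deg.add {d : ℕ} {p q : R → R} (hp : Deg d p) (hq : Deg d q) :
    Deg d fun x => p x + q x := by
  induction d generalizing p q with
  | zero => intro x; simp only [hp x, hq x]
  | succ d ih =>
    intro y
    have := ih (hp y) (hq y)
    convert this using 2
    simp only [add_sub_add_comm]

lemma Deg.succ {d : ℕ} {p : R → R} (hp : Deg d p) : Deg (d + 1) p := by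
  induction d generalizing p with
  | zero => intro y x; simp only [hp (x + y), hp x, hp (0 + y)]
  | succ d ih => intro y; exact ih (hp y)

lemma Deg.mono {d e : ℕ} (h : d ≤ e) {p : R → R} (hp : Deg d p) : Deg e p := by
  induction h with
  | refl => exact hp
  | step _ ih => exact ih.succ

lemma Deg.sum {ι : Type*} {d : ℕ} (s : Finset ι) (p : ι → R → R) (hp : ∀ i ∈ s, Deg d (p i)) :
    Deg d fun x => ∑ i ∈ s, p i x := by
  classical
  induction s using Finset.induction_on with
  | empty => simpa using Deg.zero d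
  | insert i s hi ih =>
    simp only [Finset.sum_insert hi]
    exact (hp i (Finset.mem_insert_self _ _)).add
      (ih fun j hj => hp j (Finset.mem_insert_of_mem hj))

omit [Fintype σ] in
lemma deg_piecewise (f : ML σ R) (Z : Finset σ) (a : σ → R) :
    Deg Z.card fun x => f (Z.piecewise (fun _ => x) a) := by
  induction Z using Finset.strongInduction generalizing a with
  | H Z ih =>
    cases hc : Z.card with
    | zero =>
      rw [Finset.card_eq_zero] at hc
      subst hc
      intro x; simp
    | succ d =>
      intro y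
      have key : ∀ x : R, f (Z.piecewise (fun _ => x + y) a) - f (Z.piecewise (fun _ => x) a) =
          ∑ S ∈ Z.powerset.erase Z, f (S.piecewise (fun _ => x) (Z.piecewise (fun _ => y) a)) := by
        intro x
        have e : Z.piecewise (fun _ => x + y) a =
            Z.piecewise ((fun _ => x) + Z.piecewise (fun _ => y) a)
              (Z.piecewise (fun _ => y) a) := by
          funext s
          by_cases hs : s ∈ Z <;> simp [Finset.piecewise, hs]
        rw [e, f.map_piecewise_add, ← Finset.add_sum_erase _ _ (Finset.mem_powerset_self Z)]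
        have e' : Z.piecewise (fun _ => x) (Z.piecewise (fun _ => y) a) =
            Z.piecewise (fun _ => x) a := by
          funext s
          by_cases hs : s ∈ Z <;> simp [Finset.piecewise, hs]
        rw [e', add_sub_cancel_left]
      simp only [key]
      refine Deg.sum _ _ fun S hS => ?_
      rw [Finset.mem_erase, Finset.mem_powerset] at hS
      have hlt : S ⊂ Z := lt_of_le_of_ne hS.2 hS.1
      exact (ih S hlt _).mono (by have := Finset.card_lt_card hlt; omega)

lemma Deg.vanish {d : ℕ} {p : R → R} (hp : Deg d p) (𝒯 : Set R)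
    (h : ∀ l : List R, (∀ T ∈ l, T ∈ 𝒯) → l.length ≤ d → p l.sum = 0) :
    ∀ x ∈ AddSubgroup.closure 𝒯, p x = 0 := by
  induction d generalizing p with
  | zero => intro x _; rw [hp x]; simpa using h [] (by simp) le_rfl
  | succ d ih =>
    have h0 : p 0 = 0 := by simpa using h [] (by simp) (by simp)
    have h1 : ∀ y ∈ AddSubgroup.closure 𝒯, ∀ x ∈ AddSubgroup.closure 𝒯, p (x + y) = p x := by
      intro y hy
      induction hy using AddSubgroup.closure_induction with
      | mem T hT =>
        intro x hx
        refine sub_eq_zero.1 (ih (hp T) (fun l hl hd => ?_) x hx)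
        have := h (T :: l) (by simpa [hT] using hl) (by simpa using hd)
        rw [List.sum_cons, add_comm] at this
        simp only [this, h l hl (by omega), sub_zero]
      | zero => simp
      | add y z hy _ ihy ihz =>
        intro x hx
        rw [← add_assoc, ihz _ (add_mem hx hy), ihy x hx]
      | neg y hy ihy =>
        intro x hx
        rw [← ihy _ (add_mem hx (neg_mem hy))]; simp
    intro x hx
    simpa [h0] using h1 x hx 0 (zero_mem _)

end Pool.Agent.Work.MP_21aa77_al
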