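import Pool.Agent.Work.MP_21aa77_al.Act
import Mathlib.GroupTheory.PGroup

/-! Groups covered by the conjugates of an abelian subgroup. -/

set_option autoImplicit false
set_option linter.unusedSectionVars false

namespace Pool.Agent.Work.MP_21aa77_al

open Subgroup
open scoped commutatorElement

universe u

variable {G : Type*} [Group G]

/-- `A` is abelian and its conjugates cover the group. -/
structure Cov (A : Subgroup G) : Prop where
  ab : ∀ a ∈ A, ∀ b ∈ A, a * b = b * a
  cov : ∀ x : G, ∃ g : G, g⁻¹ * x * g ∈ A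

lemma Cov.p2 {A : Subgroup G} (h : Cov A) : P2 G := by
  intro x y
  obtain ⟨g, hg⟩ := h.cov x
  obtain ⟨k, hk⟩ := h.cov y
  refine ⟨g * k⁻¹, ?_⟩
  have := (show Commute _ _ from h.ab _ hg _ hk).map (MulAut.conj k)
  convert this using 1 <;> simp [mul_assoc]

lemma Cov.map {A : Subgroup G} (h : Cov A) {Q : Type*} [Group Q] (f : G →* Q)
    (hf : Function.Surjective f) : Cov (A.map f) := by
  constructor
  · rintro _ ⟨a, ha, rfl⟩ _ ⟨b, hb, rfl⟩
    rw [← map_mul, ← map_mul, h.ab a ha b hb]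
  · intro x
    obtain ⟨x, rfl⟩ := hf x
    obtain ⟨g, hg⟩ := h.cov x
    exact ⟨f g, _, hg, by simp⟩

lemma Cov.sub {A : Subgroup G} (h : Cov A) (N : Subgroup G)
    (hN : ∀ g : G, ∃ n ∈ N, ∃ a ∈ A, g = n * a) : Cov (A.subgroupOf N) := by
  constructor
  · intro a ha b hb
    exact Subtype.ext (h.ab _ ha _ hb)
  · intro x
    obtain ⟨g, hg⟩ := h.cov x
    obtain ⟨n, hn, a, ha, rfl⟩ := hN g
    refine ⟨⟨n, hn⟩, ?_⟩
    rw [mem_subgroupOf]
    convert mul_mem (mul_mem ha hg) (inv_mem ha) using 1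
    simp [mul_assoc]

lemma Cov.top_of_comm {A : Subgroup G} (h : Cov A) (hc : ∀ x y : G, x * y = y * x) : A = ⊤ := by
  rw [eq_top_iff]
  intro x _
  obtain ⟨g, hg⟩ := h.cov x
  rwa [mul_assoc, hc x g, inv_mul_cancel_left] at hg

lemma Cov.comm_of_top {A : Subgroup G} (h : Cov A) (hA : A = ⊤) (x y : G) : x * y = y * x :=
  h.ab x (hA ▸ mem_top x) y (hA ▸ mem_top y)

lemma Cov.top_of_sub {A N : Subgroup G} (hN : ∀ g : G, ∃ n ∈ N, ∃ a ∈ A, g = n * a)
    (h : A.subgroupOf N = ⊤) : A = ⊤ := by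
  rw [eq_top_iff]
  intro x _
  obtain ⟨n, hn, a, ha, rfl⟩ := hN x
  exact mul_mem (subgroupOf_eq_top.1 h hn) ha

lemma dec_of_map_top {A N : Subgroup G} [N.Normal] (h : A.map (QuotientGroup.mk' N) = ⊤) (g : G) :
    ∃ n ∈ N, ∃ a ∈ A, g = n * a := by
  have : QuotientGroup.mk' N g ∈ A.map (QuotientGroup.mk' N) := h ▸ mem_top _
  obtain ⟨a, ha, e⟩ := this
  refine ⟨g * a⁻¹, ?_, a, ha, by group⟩
  rw [← QuotientGroup.eq_one_iff]
  change QuotientGroup.mk' N _ = 1
  rw [map_mul, map_inv, e, mul_inv_cancel]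

lemma Cov.dec {A : Subgroup G} (h : Cov A) (x : G) :
    ∃ n ∈ _root_.commutator G, ∃ a ∈ A, x = n * a := by
  obtain ⟨g, hg⟩ := h.cov x
  exact ⟨⁅g, g⁻¹ * x * g⁆, commutator_mem_commutator (mem_top _) (mem_top _), _, hg, by group⟩

lemma Cov.perfect {A : Subgroup G} (h : Cov A) :
    _root_.commutator G ≤ ⁅_root_.commutator G, _root_.commutator G⁆ := by
  set D := ⁅_root_.commutator G, _root_.commutator G⁆ with hD
  have hq := h.map (QuotientGroup.mk' D) (QuotientGroup.mk'_surjective D)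
  have e : (_root_.commutator G).map (QuotientGroup.mk' D) = _root_.commutator (G ⧸ D) := by
    change Subgroup.map _ ⁅(⊤ : Subgroup G), ⊤⁆ = ⁅(⊤ : Subgroup (G ⧸ D)), ⊤⁆
    rw [Subgroup.map_commutator, map_top_of_surjective _ (QuotientGroup.mk'_surjective D)]
  have h1 := (hq.sub _ hq.dec).top_of_comm (by
    rintro ⟨x, hx'⟩ ⟨y, hy'⟩
    obtain ⟨x, hx, rfl⟩ := e.ge hx'
    obtain ⟨y, hy, rfl⟩ := e.ge hy'
    refine Subtype.ext (commutatorElement_eq_one_iff_mul_comm.1 ?_)
    change ⁅QuotientGroup.mk' D x, QuotientGroup.mk' D y⁆ = 1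
    rw [← map_commutatorElement]
    exact (QuotientGroup.eq_one_iff _).2 (commutator_mem_commutator hx hy))
  have h2 := hq.comm_of_top (Cov.top_of_sub hq.dec h1)
  refine commutator_le.2 fun x _ y _ => ?_
  rw [← QuotientGroup.eq_one_iff]
  change QuotientGroup.mk' D _ = 1
  rw [map_commutatorElement]
  exact commutatorElement_eq_one_iff_mul_comm.2 (h2 _ _)

lemma comm_of_central (hp : P2 G) (h : ∀ x y z : G, z * ⁅x, y⁆ = ⁅x, y⁆ * z) (x y : G) :
    x * y = y * x := by
  obtain ⟨k, hk⟩ := hp x y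
  have e : k⁻¹ * x * k = x * ⁅x⁻¹, k⁻¹⁆ := by group
  have h1 := hk.eq
  rw [e, mul_assoc, ← h, ← mul_assoc, ← mul_assoc] at h1
  exact mul_right_cancel h1

lemma lcs_sub (F : Subgroup G) (t : F) (m : ℕ)
    (h : (normalClosure {(t : G)}).lowerCentralSeries m = ⊥) :
    (normalClosure {t}).lowerCentralSeries m = ⊥ := by
  rw [← map_eq_bot_iff_of_injective _ F.subtype_injective, map_lowerCentralSeries, eq_bot_iff, ← h]
  refine lowerCentralSeries_mono m ?_
  simpa using map_normalClosure_le {t} F.subtype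

theorem bdd_core (hp : P2 G) (c : ℕ)
    (hc : ∀ w : G, (normalClosure {w}).lowerCentralSeries c = ⊥)
    (hg : closure {t : G | (normalClosure {t}).lowerCentralSeries 1 = ⊥} = ⊤) (x y : G) :
    x * y = y * x := by
  refine comm_of_central hp (fun x y z => ?_) x y
  have hz : z ∈ closure {t : G | (normalClosure {t}).lowerCentralSeries 1 = ⊥} := hg ▸ mem_top z
  induction hz using Subgroup.closure_induction with
  | mem t ht =>
    have : IsMulCommutative (normalClosure ({t} : Set G)) := commutator_self_eq_bot_iff.1 ht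
    exact centr_bdd (normalClosure {t}) hp c hc hg x y t (subset_normalClosure rfl)
  | one => simp
  | mul a b _ _ ha hb => rw [mul_assoc, hb, ← mul_assoc, ha, mul_assoc]
  | inv a _ ha => exact (show Commute _ _ from ha).inv_left.eq

/-- Groups of bounded Fitting degree are not covered by a proper abelian subgroup. -/
theorem bdd_top (c : ℕ) : ∀ (G : Type u) [Group G] (A : Subgroup G), Cov A →
    (∀ w : G, (normalClosure {w}).lowerCentralSeries c = ⊥) → A = ⊤ := by
  induction c with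
  | zero =>
    intro G _ A _ hc
    rw [eq_top_iff]
    intro x _
    have : x ∈ (normalClosure {x}).lowerCentralSeries 0 := subset_normalClosure rfl
    rw [hc, mem_bot] at this
    rw [this]; exact one_mem A
  | succ c ih =>
    intro G _ A hA hc
    let F : Subgroup G := ⨆ w : G, (normalClosure {w}).lowerCentralSeries c
    have hs := QuotientGroup.mk'_surjective F
    have h1 := ih (G ⧸ F) _ (hA.map _ hs) (by
      intro w
      obtain ⟨w, rfl⟩ := hs w
      rw [← Set.image_singleton, ← map_normalClosure _ _ hs, ← map_lowerCentralSeries,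
        Subgroup.map_eq_bot_iff, QuotientGroup.ker_mk']
      exact le_iSup (fun w : G => (normalClosure {w}).lowerCentralSeries c) w)
    have h2 := dec_of_map_top h1
    have h3 := hA.sub F h2
    refine Cov.top_of_sub h2 (h3.top_of_comm (bdd_core h3.p2 (c + 1)
      (fun w => lcs_sub F w _ (hc w)) ?_))
    have h4 : F ≤ (closure {t : F | (normalClosure {t}).lowerCentralSeries 1 = ⊥}).map F.subtype := by
      refine iSup_le fun w t ht => ?_
      have htF : t ∈ F := le_iSup (fun w : G => (normalClosure {w}).lowerCentralSeries c) w ht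
      refine ⟨⟨t, htF⟩, subset_closure (lcs_sub F _ 1 ?_), rfl⟩
      have h5 : normalClosure {t} ≤ (normalClosure {w}).lowerCentralSeries c :=
        normalClosure_le_normal (by simpa using ht)
      rw [eq_bot_iff, ← hc w]
      exact commutator_mono h5 (h5.trans (lowerCentralSeries_le_self _ _))
    rw [eq_top_iff]
    intro x _
    obtain ⟨y, hy, e⟩ := h4 x.2
    rwa [← Subtype.ext e]

lemma three_le {H₁ H₂ H₃ T : Subgroup G} [T.Normal] (h1 : ⁅⁅H₂, H₃⁆, H₁⁆ ≤ T)
    (h2 : ⁅⁅H₃, H₁⁆, H₂⁆ ≤ T) : ⁅⁅H₁, H₂⁆, H₃⁆ ≤ T := by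
  rw [← QuotientGroup.ker_mk' T, ← Subgroup.map_eq_bot_iff, Subgroup.map_commutator,
    Subgroup.map_commutator] at h1 h2 ⊢
  exact commutator_commutator_eq_bot_of_rotate h1 h2

lemma lcs_comm (N : Subgroup G) [N.Normal] (n m : ℕ) :
    ⁅N.lowerCentralSeries m, N.lowerCentralSeries n⁆ ≤ N.lowerCentralSeries (m + n + 1) := by
  induction n generalizing m with
  | zero => exact le_rfl
  | succ n ih =>
    rw [Subgroup.commutator_comm, Subgroup.lowerCentralSeries_succ N n]
    refine three_le ?_ ?_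
    · rw [Subgroup.commutator_comm N]
      have := ih (m + 1)
      rwa [Nat.add_right_comm m 1 n] at this
    · exact commutator_mono (ih m) le_rfl

lemma comm_le_sqs (W : Subgroup G) : ⁅W, W⁆ ≤ sqs W := by
  refine commutator_le.2 fun a ha b hb => ?_
  have e : ⁅a, b⁆ = (a * b) * (a * b) * ((b⁻¹ * a⁻¹ * b) * (b⁻¹ * a⁻¹ * b)) * (b⁻¹ * b⁻¹) := by
    group
  rw [e]
  exact mul_mem (mul_mem (subset_closure ⟨_, mul_mem ha hb, rfl⟩)
    (subset_closure ⟨_, mul_mem (mul_mem (inv_mem hb) (inv_mem ha)) hb, rfl⟩))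
    (subset_closure ⟨_, inv_mem hb, rfl⟩)

lemma sqs_le (W : Subgroup G) : sqs W ≤ W := by
  refine (closure_le _).2 ?_
  rintro _ ⟨w, hw, rfl⟩
  exact mul_mem hw hw

lemma sqs_sqs (h4 : ∀ x : G, x ^ 4 = 1) (W : Subgroup G) [W.Normal] : sqs (sqs W) ≤ ⁅W, W⁆ := by
  refine (closure_le _).2 ?_
  rintro _ ⟨y, hy, rfl⟩
  induction hy using Subgroup.closure_induction with
  | mem y hy =>
    obtain ⟨w, hw, rfl⟩ := hy
    have : w * w * (w * w) = 1 := by rw [← h4 w]; simp only [pow_succ, pow_zero]; group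
    rw [this]; exact one_mem _
  | one => simp
  | mul y z hy hz ihy ihz =>
    have e : y * z * (y * z) = y * y * ⁅y⁻¹, z⁆ * (z * z) := by group
    rw [e]
    exact mul_mem (mul_mem ihy (commutator_mem_commutator (inv_mem (sqs_le W hy)) (sqs_le W hz))) ihz
  | inv y _ ih => simpa using inv_mem ih

lemma sec_comm (W : Subgroup G) [W.Normal] :
    IsMulCommutative (W.map (QuotientGroup.mk' (sqs W))) := by
  rw [← commutator_self_eq_bot_iff, ← Subgroup.map_commutator, Subgroup.map_eq_bot_iff,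
    QuotientGroup.ker_mk']
  exact comm_le_sqs W

lemma sec_two (W : Subgroup G) [W.Normal] :
    ∀ v ∈ W.map (QuotientGroup.mk' (sqs W)), v * v = 1 := by
  rintro _ ⟨w, hw, rfl⟩
  rw [← map_mul]
  exact (QuotientGroup.eq_one_iff _).2 (subset_closure ⟨w, hw, rfl⟩)

lemma four_map (h4 : ∀ x : G, x ^ 4 = 1) {Q : Type*} [Group Q] (f : G →* Q)
    (hf : Function.Surjective f) (x : Q) : x ^ 4 = 1 := by
  obtain ⟨x, rfl⟩ := hf x
  rw [← map_pow, h4, map_one]

lemma quad_sec (h4 : ∀ x : G, x ^ 4 = 1) (W : Subgroup G) [hW : W.Normal] (x : G) :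
    ⁅⁅W, normalClosure {x * x}⁆, normalClosure {x * x}⁆ ≤ sqs W := by
  have hs := QuotientGroup.mk'_surjective (sqs W)
  have := sec_comm W
  have := hW.map _ hs
  have h := quad_four _ (four_map h4 _ hs) (sec_two W) (QuotientGroup.mk' (sqs W) x)
  rw [← QuotientGroup.ker_mk' (sqs W), ← Subgroup.map_eq_bot_iff, Subgroup.map_commutator,
    Subgroup.map_commutator, map_normalClosure _ _ hs, Set.image_singleton, map_mul,
    Subgroup.commutator_comm, Subgroup.commutator_comm (W.map _)]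
  exact h

lemma lcs_eight (h4 : ∀ x : G, x ^ 4 = 1) (x : G) :
    (normalClosure {x * x}).lowerCentralSeries 8 ≤ (normalClosure {x * x}).lowerCentralSeries 9 := by
  set N := normalClosure ({x * x} : Set G)
  have h1 : N.lowerCentralSeries 6 ≤ sqs (N.lowerCentralSeries 4) := quad_sec h4 _ x
  have h2 := quad_sec h4 (sqs (N.lowerCentralSeries 4)) x
  exact (commutator_mono (commutator_mono h1 le_rfl) le_rfl).trans
    (h2.trans ((sqs_sqs h4 _).trans (lcs_comm N 4 4)))

lemma lcs_eight_fin [Finite G] (h4 : ∀ x : G, x ^ 4 = 1) (x : G) :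
    (normalClosure {x * x}).lowerCentralSeries 8 = ⊥ := by
  set N := normalClosure ({x * x} : Set G)
  have hp : IsPGroup 2 G := fun g => ⟨2, h4 g⟩
  have : Fact (Nat.Prime 2) := ⟨Nat.prime_two⟩
  have := hp.isNilpotent
  obtain ⟨n, hn⟩ := (isNilpotent_iff_lowerCentralSeries N).1 inferInstance
  have h1 : ∀ j, N.lowerCentralSeries 8 ≤ N.lowerCentralSeries (8 + j) := by
    intro j
    induction j with
    | zero => exact le_rfl
    | succ j ih => exact (lcs_eight h4 x).trans (commutator_mono ih le_rfl)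
  rw [eq_bot_iff, ← hn]
  exact (h1 n).trans (Subgroup.lowerCentralSeries_antitone N (by omega))

/-- local finiteness. -/
def LF (G : Type*) [Group G] : Prop := ∀ s : Set G, s.Finite → (closure s : Set G).Finite

/-- subgroup generated by the `F`-conjugates of `u`. -/
def ncIn (F : Subgroup G) (u : G) : Subgroup G := closure {y | ∃ f ∈ F, y = f * u * f⁻¹}

lemma ncIn_mono {F F' : Subgroup G} (h : F ≤ F') (u : G) : ncIn F u ≤ ncIn F' u :=
  closure_mono fun _ ⟨f, hf, e⟩ => ⟨f, h hf, e⟩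

lemma ncIn_le (F : Subgroup G) (u : F) : ncIn F u ≤ (normalClosure {u}).map F.subtype := by
  refine (closure_le _).2 ?_
  rintro _ ⟨f, hf, rfl⟩
  exact ⟨_, (normalClosure_normal (s := {u})).conj_mem u (subset_normalClosure rfl) ⟨f, hf⟩, rfl⟩

lemma dir_lcs {ι : Type*} [Nonempty ι] (K : ι → Subgroup G) (hd : Directed (· ≤ ·) K)
    (N : Subgroup G) (h0 : N ≤ ⨆ s, K s) (n : ℕ) :
    ∀ g ∈ N.lowerCentralSeries n, g ∈ ⨆ s, (K s).lowerCentralSeries n := by
  have hdir : ∀ n, Directed (· ≤ ·) fun s => (K s).lowerCentralSeries n := fun n s t => by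
    obtain ⟨u, h1, h2⟩ := hd s t
    exact ⟨u, lowerCentralSeries_mono n h1, lowerCentralSeries_mono n h2⟩
  induction n with
  | zero => exact h0
  | succ n ih =>
    refine commutator_le.2 fun a ha b hb => ?_
    obtain ⟨s, hs⟩ := (mem_iSup_of_directed (hdir n)).1 (ih a ha)
    obtain ⟨t, ht⟩ := (mem_iSup_of_directed hd).1 (h0 hb)
    obtain ⟨u, h1, h2⟩ := hd s t
    exact (mem_iSup_of_directed (hdir (n + 1))).2 ⟨u, commutator_mem_commutator
      (lowerCentralSeries_mono n h1 hs) (h2 ht)⟩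

lemma ncIn_dir (x : G) : Directed (· ≤ ·) fun s : Finset G => ncIn (closure (insert x (s : Set G))) (x * x) := by
  refine Monotone.directed_le fun s t hst => ?_
  exact ncIn_mono (closure_mono (Set.insert_subset_insert (Finset.coe_subset.2 hst))) _

lemma ncIn_sup (x : G) : normalClosure ({x * x} : Set G) ≤ ⨆ s : Finset G, ncIn (closure (insert x (s : Set G))) (x * x) := by
  refine (closure_le _).2 fun y hy => ?_
  obtain ⟨z, hz, h⟩ := Group.mem_conjugatesOfSet_iff.1 hy
  rw [Set.mem_singleton_iff] at hz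
  subst hz
  obtain ⟨a, rfl⟩ := isConj_iff.1 h
  refine mem_iSup_of_mem {a} ?_
  exact subset_closure ⟨a, subset_closure (by simp), rfl⟩

lemma ncIn_bot (F : Subgroup G) (c : ℕ) (x : G) (hx : x ∈ F)
    (h : ∀ y : F, (normalClosure {y * y}).lowerCentralSeries c = ⊥) :
    (ncIn F (x * x)).lowerCentralSeries c ≤ ⊥ := by
  have h0 := ncIn_le F (⟨x, hx⟩ * ⟨x, hx⟩)
  rw [Subgroup.coe_mul] at h0
  have h1 := lowerCentralSeries_mono c h0
  beta_reduce at h1
  rwa [← map_lowerCentralSeries, h, Subgroup.map_bot] at h1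

lemma lcs_lf (hl : LF G) (c : ℕ) (hc : ∀ (F : Subgroup G), Finite F → ∀ y : F,
    (normalClosure {y * y}).lowerCentralSeries c = ⊥) (x : G) :
    (normalClosure {x * x}).lowerCentralSeries c = ⊥ := by
  have h1 : ∀ s : Finset G,
      (ncIn (closure (insert x (s : Set G))) (x * x)).lowerCentralSeries c ≤ ⊥ := fun s =>
    ncIn_bot _ c x (subset_closure (Set.mem_insert _ _))
      (hc _ (hl _ (s.finite_toSet.insert x)).to_subtype)
  rw [eq_bot_iff]
  intro g hg
  exact iSup_le h1 (dir_lcs _ (ncIn_dir x) _ (ncIn_sup x) c g hg)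

lemma lcs_eight_lf (hl : LF G) (h4 : ∀ x : G, x ^ 4 = 1) (x : G) :
    (normalClosure {x * x}).lowerCentralSeries 8 = ⊥ :=
  lcs_lf hl 8 (fun _ _ y => lcs_eight_fin (fun y => Subtype.ext (h4 y)) y) x

lemma centr_sec {A : Subgroup G} (hA : Cov A) (h4 : ∀ x : G, x ^ 4 = 1) (W : Subgroup G)
    [hW : W.Normal] : ⁅W, _root_.commutator G⁆ ≤ sqs W := by
  have hs := QuotientGroup.mk'_surjective (sqs W)
  have := sec_comm W
  have := hW.map _ hs
  have hq := hA.map _ hs
  have hd : ∀ g : G ⧸ sqs W, ∃ n ∈ sqs (⊤ : Subgroup (G ⧸ sqs W)),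
      ∃ a ∈ A.map (QuotientGroup.mk' (sqs W)), g = n * a := fun g => by
    obtain ⟨n, hn, a, ha, e⟩ := hq.dec g
    exact ⟨n, comm_le_sqs ⊤ hn, a, ha, e⟩
  have h := centr_four _ (four_map h4 _ hs) (sec_two W) (hq.sub _ hd).p2
  rw [← QuotientGroup.ker_mk' (sqs W), ← Subgroup.map_eq_bot_iff, Subgroup.map_commutator,
    Subgroup.commutator_comm, commutator_eq_bot_iff_le_centralizer, _root_.commutator_def,
    Subgroup.map_commutator, map_top_of_surjective _ hs]
  exact hq.perfect.trans ((commutator_mono (comm_le_sqs ⊤) (comm_le_sqs ⊤)).trans h)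

/-- Locally finite groups of exponent four are not covered by a proper abelian subgroup. -/
theorem four_top {A : Subgroup G} (hA : Cov A) (hl : LF G) (h4 : ∀ x : G, x ^ 4 = 1) : A = ⊤ := by
  set K := _root_.commutator G with hK
  have hp : K ≤ ⁅K, K⁆ := hA.perfect
  have h1 : ∀ (W : Subgroup G) [W.Normal], ⁅W, K⁆ ≤ ⁅⁅W, K⁆, K⁆ := by
    intro W _
    refine (commutator_mono le_rfl hp).trans ?_
    rw [Subgroup.commutator_comm]
    exact three_le (by rw [Subgroup.commutator_comm K W]) le_rfl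
  have h2 : ∀ (W : Subgroup G) [W.Normal], ⁅W, K⁆ ≤ ⁅W, W⁆ := by
    intro W _
    exact (h1 W).trans ((commutator_mono (centr_sec hA h4 W) le_rfl).trans
      ((centr_sec hA h4 _).trans (sqs_sqs h4 W)))
  have h3 : ∀ x : G, ⁅normalClosure {x * x}, K⁆ = ⊥ := by
    intro x
    set N := normalClosure ({x * x} : Set G)
    have : ∀ j, ⁅N, K⁆ ≤ N.lowerCentralSeries j := by
      intro j
      induction j with
      | zero => exact commutator_le_left _ _
      | succ j ih =>
        exact (h1 N).trans ((h2 _).trans (commutator_mono ih (commutator_le_left _ _)))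
    rw [eq_bot_iff, ← lcs_eight_lf hl h4 x]
    exact this 8
  have h5 : sqs (⊤ : Subgroup G) ≤ centralizer (K : Set G) := by
    refine (closure_le _).2 ?_
    rintro _ ⟨x, -, rfl⟩
    exact commutator_eq_bot_iff_le_centralizer.1 (h3 x) (subset_normalClosure rfl)
  have h6 : K = ⊥ := by
    rw [eq_bot_iff]
    refine hp.trans (le_of_eq ?_)
    exact commutator_eq_bot_iff_le_centralizer.2 ((comm_le_sqs ⊤).trans h5)
  refine hA.top_of_comm fun x y => commutatorElement_eq_one_iff_mul_comm.1 ?_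
  rw [← mem_bot, ← h6]
  exact commutator_mem_commutator (mem_top _) (mem_top _)

lemma LF.sub (hl : LF G) (K : Subgroup G) : LF K := by
  intro s hs
  have := hl _ (hs.image K.subtype)
  rw [← MonoidHom.map_closure, coe_map] at this
  exact this.of_finite_image K.subtype_injective.injOn

lemma LF.map (hl : LF G) {Q : Type*} [Group Q] (f : G →* Q) (hf : Function.Surjective f) :
    LF Q := by
  intro s hs
  obtain ⟨g, hg⟩ := hf.hasRightInverse
  have e : s = f '' (g '' s) := by rw [Set.image_image]; simp [hg _]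
  rw [e, ← MonoidHom.map_closure, coe_map]
  exact (hl _ (hs.image g)).image f

theorem main_top {A : Subgroup G} (hA : Cov A) (hl : LF G) {Q : Type*} [Group Q]
    (f : _root_.commutator G →* Q) (hf : Function.Surjective f)
    (hQ : (∀ x : Q, x ^ 4 = 1) ∨ ∃ c, ∀ x : Q, (normalClosure {x}).lowerCentralSeries c = ⊥) :
    Subsingleton Q := by
  have h1 := (hA.sub _ hA.dec).map f hf
  have h2 : ((A.subgroupOf (_root_.commutator G)).map f) = ⊤ := by
    rcases hQ with h | ⟨c, h⟩
    · exact four_top h1 ((hl.sub _).map f hf) h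
    · exact bdd_top c Q _ h1 h
  have h3 := h1.comm_of_top h2
  have h4 : ∀ x : _root_.commutator G, f x = 1 := by
    have h5 : ⁅_root_.commutator G, _root_.commutator G⁆ ≤
        f.ker.map (_root_.commutator G).subtype := by
      refine commutator_le.2 fun x hx y hy => ⟨⁅(⟨x, hx⟩ : _root_.commutator G), ⟨y, hy⟩⁆, ?_, rfl⟩
      change f _ = 1
      rw [map_commutatorElement]
      exact commutatorElement_eq_one_iff_mul_comm.2 (h3 _ _)
    intro x
    obtain ⟨y, hy, e⟩ := h5 (hA.perfect x.2)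
    rw [← Subtype.ext e]
    exact hy
  refine ⟨fun a b => ?_⟩
  obtain ⟨a, rfl⟩ := hf a
  obtain ⟨b, rfl⟩ := hf b
  rw [h4, h4]

end Pool.Agent.Work.MP_21aa77_al
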