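import Pool.Agent.Work.MP_21aa77_al.Core

/-! The key step of the extremal argument and the ring-theoretic theorem. -/

set_option autoImplicit false
set_option linter.unusedSectionVars false

namespace Pool.Agent.Work.MP_21aa77_al

open Finset Function

variable {H R : Type*} [Group H] [Ring R] {ρ : H →* R} {S : Set H}
variable {ν : ℕ} {bg : List ℕ}

section
variable {σ : Type} [Fintype σ] [DecidableEq σ]

/-- background family. -/
structure Bg (bg : List ℕ) (𝒵 : List (Finset σ)) : Prop where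
  pw : 𝒵.Pairwise Disjoint
  sz : 𝒵.map Finset.card = bg

lemma ext_zero (hE : ¬ NZ ρ S ((ν + 1) :: bg)) {f : ML σ R} (hf : CC ρ f)
    {𝒵 : List (Finset σ)} (hb : Bg bg 𝒵) {Q : Finset σ} (hQ : Q.card = ν + 1)
    (hd : ∀ Z ∈ 𝒵, Disjoint Q Z) {a : σ → R} (ha : ∀ Z ∈ 𝒵, Cst ρ S a Z) (haQ : Cst ρ S a Q) :
    f a = 0 := by
  by_contra h
  refine hE ⟨σ, inferInstance, inferInstance, f, a, Q :: 𝒵, hf, List.pairwise_cons.2 ⟨hd, hb.pw⟩,
    by simp [hQ, hb.sz], ?_, h⟩
  intro Z hZ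
  rcases List.mem_cons.1 hZ with rfl | hZ
  · exact haQ
  · exact ha Z hZ

lemma shear0 (hE : ¬ NZ ρ S ((ν + 1) :: bg)) {f : ML σ R} (hf : CC ρ f)
    {𝒵 : List (Finset σ)} (hb : Bg bg 𝒵) {X Y : Finset σ} (hX : X.card = ν)
    (hXY : Disjoint X Y) (hdX : ∀ Z ∈ 𝒵, Disjoint X Z) (hdY : ∀ Z ∈ 𝒵, Disjoint Y Z)
    {b : σ → R} (ha : ∀ Z ∈ 𝒵, Cst ρ S b Z) {x : R} (hx : x ∈ LL ρ S) (hbx : ∀ s ∈ X, b s = x) :
    f (Y.piecewise (fun _ => x) 0 + b) = f b := by
  rw [f.map_add_univ, Finset.sum_eq_single ∅]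
  · simp
  · intro T _ hT
    by_cases hTY : T ⊆ Y
    · obtain ⟨s, hs⟩ := Finset.nonempty_iff_ne_empty.2 hT
      have hsX : s ∉ X := Finset.disjoint_right.1 hXY (hTY hs)
      refine ext_zero hE hf hb (Q := insert s X) (by rw [Finset.card_insert_of_notMem hsX, hX])
        (fun Z hZ => Finset.disjoint_insert_left.2
          ⟨Finset.disjoint_left.1 (hdY Z hZ) (hTY hs), hdX Z hZ⟩)
        (fun Z hZ => (ha Z hZ).congr fun t ht => Finset.piecewise_eq_of_notMem _ _ _ fun h =>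
          Finset.disjoint_left.1 (hdY Z hZ) (hTY h) ht) ⟨x, hx, fun t ht => ?_⟩
      rcases Finset.mem_insert.1 ht with rfl | ht
      · rw [Finset.piecewise_eq_of_mem _ _ _ hs, Finset.piecewise_eq_of_mem _ _ _ (hTY hs)]
      · rw [Finset.piecewise_eq_of_notMem _ _ _ fun h => Finset.disjoint_left.1 hXY ht (hTY h),
          hbx t ht]
    · obtain ⟨s, hs, hsY⟩ := Finset.not_subset.1 hTY
      refine f.map_coord_zero s ?_
      rw [Finset.piecewise_eq_of_mem _ _ _ hs, Finset.piecewise_eq_of_notMem _ _ _ hsY]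
      rfl
  · simp

/-- put `x` on `X` and `y` on `Y`. -/
def asg (X Y : Finset σ) (a : σ → R) (x y : R) : σ → R :=
  fun s => if s ∈ X then x else if s ∈ Y then y else a s

lemma swap_asg (hE : ¬ NZ ρ S ((ν + 1) :: bg)) {f : ML σ R} (hf : CC ρ f)
    {𝒵 : List (Finset σ)} (hb : Bg bg 𝒵) {X Y : Finset σ} (hX : X.card = ν) (hY : Y.card = ν)
    (hXY : Disjoint X Y) (hdX : ∀ Z ∈ 𝒵, Disjoint X Z) (hdY : ∀ Z ∈ 𝒵, Disjoint Y Z)
    {a : σ → R} (ha : ∀ Z ∈ 𝒵, Cst ρ S a Z) {x y : R} (hx : x ∈ LL ρ S) (hy : y ∈ LL ρ S) :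
    f (asg X Y a x y) = f (asg X Y a (-y) x) := by
  have hc : ∀ x y, ∀ Z ∈ 𝒵, Cst ρ S (asg X Y a x y) Z := fun x y Z hZ =>
    (ha Z hZ).congr fun s hs => by
      simp [asg, Finset.disjoint_right.1 (hdX Z hZ) hs, Finset.disjoint_right.1 (hdY Z hZ) hs]
  have s1 : ∀ x y, x ∈ LL ρ S → f (asg X Y a x (x + y)) = f (asg X Y a x y) := by
    intro x y hx
    rw [← shear0 hE hf hb hX hXY hdX hdY (hc x y) hx fun s hs => by simp [asg, hs]]
    congr 1
    funext s
    by_cases h1 : s ∈ X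
    · simp [asg, Finset.piecewise, h1, Finset.disjoint_left.1 hXY h1]
    · by_cases h2 : s ∈ Y <;> simp [asg, Finset.piecewise, h1, h2]
  have s2 : ∀ x y, y ∈ LL ρ S → f (asg X Y a (y + x) y) = f (asg X Y a x y) := by
    intro x y hy
    rw [← shear0 hE hf hb hY hXY.symm hdY hdX (hc x y) hy fun s hs => by
      simp [asg, hs, Finset.disjoint_right.1 hXY hs]]
    congr 1
    funext s
    by_cases h1 : s ∈ X
    · simp [asg, Finset.piecewise, h1]
    · by_cases h2 : s ∈ Y <;> simp [asg, Finset.piecewise, h1, h2]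
  have e1 : x + y + -y = x := by abel
  have e2 : -y + (x + y) = x := by abel
  have t2 := s2 (-y) (x + y) (add_mem hx hy)
  have t3 := s1 (-y) (x + y) (neg_mem hy)
  rw [e1] at t2
  rw [e2] at t3
  rw [← s1 x y hx, t2, t3]

/-- conjugate the slots of `X` by `k`. -/
def cs (X : Finset σ) (k : H) : σ → H := fun s => if s ∈ X then k else 1

lemma transfer (hs : Setup ρ S) (hE : ¬ NZ ρ S ((ν + 1) :: bg)) {f : ML σ R} (hf : CC ρ f)
    {𝒵 : List (Finset σ)} (hb : Bg bg 𝒵) {X Y : Finset σ} (hX : X.card = ν) (hY : Y.card = ν)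
    (hXY : Disjoint X Y) (hdX : ∀ Z ∈ 𝒵, Disjoint X Z) (hdY : ∀ Z ∈ 𝒵, Disjoint Y Z)
    {a : σ → R} (ha : ∀ Z ∈ 𝒵, Cst ρ S a Z) (haX : Cst ρ S a X) (haY : Cst ρ S a Y) (k : H) :
    tw ρ f (cs X k) a = tw ρ f (cs Y k) a := by
  obtain ⟨x, hx, hax⟩ := haX
  obtain ⟨y, hy, hay⟩ := haY
  have e : a = asg X Y a x y := by
    funext s
    by_cases h1 : s ∈ X
    · simp [asg, h1, hax]
    · by_cases h2 : s ∈ Y <;> simp [asg, h1, h2, hay]
  have tX : ∀ x y, tw ρ f (cs X k) (asg X Y a x y) = f (asg X Y a (cj ρ k x) y) := by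
    intro x y
    rw [tw_apply]
    congr 1
    funext s
    by_cases h1 : s ∈ X <;> simp [asg, cs, h1, cj_one]
  have tY : ∀ x y, tw ρ f (cs Y k) (asg X Y a x y) = f (asg X Y a x (cj ρ k y)) := by
    intro x y
    rw [tw_apply]
    congr 1
    funext s
    by_cases h1 : s ∈ X
    · simp [asg, cs, h1, cj_one, Finset.disjoint_left.1 hXY h1]
    · by_cases h2 : s ∈ Y <;> simp [asg, cs, h1, h2, cj_one]
  rw [e, swap_asg hE (hf.tw _) hb hX hY hXY hdX hdY ha hx hy, tX, tY,
    swap_asg hE hf hb hX hY hXY hdX hdY ha hx (hs.cj_mem k hy), map_neg]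

lemma main2 (hs : Setup ρ S) (hE : ¬ NZ ρ S ((ν + 1) :: bg)) {f : ML σ R} (hf : WL f)
    {α β : σ} {g h : H} (hk : PK ρ f α β g h)
    {𝒵 : List (Finset σ)} (hb : Bg bg 𝒵) {X Y : Finset σ} (hX : X.card = ν) (hY : Y.card = ν)
    (hXY : Disjoint X Y) (hdX : ∀ Z ∈ 𝒵, Disjoint X Z) (hdY : ∀ Z ∈ 𝒵, Disjoint Y Z)
    (hβ : β ∈ X) (hαX : α ∉ X) (hαY : α ∉ Y)
    {a : σ → R} (ha : ∀ Z ∈ 𝒵, Cst ρ S a Z) (haX : Cst ρ S a X) (haY : Cst ρ S a Y) :
    f a = 0 := by
  have hne : α ≠ β := fun e => hαX (e ▸ hβ)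
  have hc : CC ρ f := ⟨hf, α, β, g, h, hne, hk⟩
  have hp : (X :: Y :: 𝒵).Pairwise Disjoint := by
    refine List.pairwise_cons.2 ⟨fun Z hZ => ?_, List.pairwise_cons.2 ⟨hdY, hb.pw⟩⟩
    rcases List.mem_cons.1 hZ with rfl | hZ
    · exact hXY
    · exact hdX Z hZ
  refine hs.red2 hp α β a (by simpa [haX, haY] using ha) fun a' w u ha' hr => ?_
  obtain ⟨k, hk'⟩ := hs.p2 u (h * (g⁻¹ * w * g) * h⁻¹)
  have e1 : f = tw ρ (tw ρ f (cs Y k⁻¹)) (cs Y k) := by
    rw [tw_tw]
    convert (tw_one (ρ := ρ) f).symm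
    funext s
    by_cases h1 : s ∈ Y <;> simp [cs, h1]
  rw [e1, ← transfer hs hE (hc.tw _) hb hX hY hXY hdX hdY
    (fun Z hZ => ha' Z (by simp [hZ])) (ha' X (by simp)) (ha' Y (by simp))]
  refine hr.zero ((hf.tw _).tw _) ((hk.tw _).tw _) ?_
  have hβY : β ∉ Y := Finset.disjoint_left.1 hXY hβ
  simp only [cs, hαX, hαY, hβ, hβY, if_true, if_false, one_mul]
  have := (hk'.map (MulAut.conj h⁻¹)).symm
  convert this using 1 <;> simp [mul_assoc]

lemma main1 (hs : Setup ρ S) (hE : ¬ NZ ρ S ((ν + 1) :: bg)) {f : ML σ R} (hf : WL f)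
    {α β : σ} {g h : H} (hne : α ≠ β) (hk : PK ρ f α β g h)
    {𝒵 : List (Finset σ)} (hb : Bg bg 𝒵) {X Y : Finset σ} (hX : X.card = ν) (hY : Y.card = ν)
    (hXY : Disjoint X Y) (hdX : ∀ Z ∈ 𝒵, Disjoint X Z) (hdY : ∀ Z ∈ 𝒵, Disjoint Y Z)
    (hβX : β ∉ X) (hβY : β ∉ Y) (hβ : ∀ Z ∈ 𝒵, β ∉ Z) (hαX : α ∉ X) (hαY : α ∉ Y)
    {a : σ → R} (ha : ∀ Z ∈ 𝒵, Cst ρ S a Z) (haX : Cst ρ S a X) (haY : Cst ρ S a Y)
    {t : H} (ht : t ∈ S) (hat : a β = ρ t - 1) : f a = 0 := by
  have hc : CC ρ f := ⟨hf, α, β, g, h, hne, hk⟩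
  obtain ⟨x, hx, hax⟩ := haX
  have hK : ρ t - 1 ∈ LL ρ S := AddSubgroup.subset_closure ⟨t, ht, rfl⟩
  have hQ : (insert β X).card = ν + 1 := by rw [Finset.card_insert_of_notMem hβX, hX]
  have hdQ : ∀ Z ∈ 𝒵, Disjoint (insert β X) Z := fun Z hZ =>
    Finset.disjoint_insert_left.2 ⟨hβ Z hZ, hdX Z hZ⟩
  have hz : ∀ z ∈ LL ρ S, f ((insert β X).piecewise (fun _ => z) a) = 0 := fun z hz =>
    ext_zero hE hc hb hQ hdQ (fun Z hZ => (ha Z hZ).congr fun s hs =>
      Finset.piecewise_eq_of_notMem _ _ _ (Finset.disjoint_right.1 (hdQ Z hZ) hs))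
      ⟨z, hz, fun s hs => Finset.piecewise_eq_of_mem _ _ _ hs⟩
  have key := hf.exp2 (Fz_two_of_sand (hs.sand t ht)) a (insert β X) (fun _ => ρ t - 1)
    (fun _ => x) fun _ _ => self_mem_Fz _
  have e0 : ((fun _ => x) + fun _ => ρ t - 1 : σ → R) = fun _ => x + (ρ t - 1) := rfl
  rw [e0, hz _ (add_mem hx hK), hz x hx, zero_add, Finset.sum_insert hβX,
    Finset.sum_eq_zero, add_zero] at key
  · rw [key]
    congr 1
    funext s
    by_cases h1 : s = β
    · subst h1; simp [hat]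
    · by_cases h2 : s ∈ X <;> simp [Finset.piecewise, h1, h2, hax]
  · intro s hsX
    have hsβ : s ≠ β := fun e => hβX (e ▸ hsX)
    have hν : 0 < ν := hX ▸ Finset.card_pos.2 ⟨s, hsX⟩
    have hsub : insert β (X.erase s) ⊆ insert β X :=
      Finset.insert_subset_insert _ (Finset.erase_subset _ _)
    refine main2 hs hE hf hk hb (X := insert β (X.erase s)) (Y := Y) ?_ hY ?_
      (fun Z hZ => (hdQ Z hZ).mono_left hsub) hdY (Finset.mem_insert_self _ _) ?_ hαY ?_ ?_ ?_
    · rw [Finset.card_insert_of_notMem fun h => hβX (Finset.mem_of_mem_erase h),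
        Finset.card_erase_of_mem hsX]
      omega
    · exact (Finset.disjoint_insert_left.2 ⟨hβY, hXY⟩).mono_left hsub
    · intro h
      rcases Finset.mem_insert.1 (hsub h) with h | h
      · exact hne h
      · exact hαX h
    · refine fun Z hZ => (ha Z hZ).congr fun u hu => ?_
      have h1 : u ∉ insert β X := Finset.disjoint_right.1 (hdQ Z hZ) hu
      have h2 : u ≠ s := fun e => h1 (e ▸ Finset.mem_insert_of_mem hsX)
      rw [update_of_ne h2, Finset.piecewise_eq_of_notMem _ _ _ h1]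
    · refine ⟨x, hx, fun u hu => ?_⟩
      have h2 : u ≠ s := by
        rintro rfl
        rcases Finset.mem_insert.1 hu with h | h
        · exact hsβ h
        · simp at h
      rw [update_of_ne h2, Finset.piecewise_eq_of_mem _ _ _ (hsub hu)]
    · refine haY.congr fun u hu => ?_
      have h1 : u ∉ insert β X :=
        Finset.disjoint_right.1 (Finset.disjoint_insert_left.2 ⟨hβY, hXY⟩) hu
      have h2 : u ≠ s := fun e => h1 (e ▸ Finset.mem_insert_of_mem hsX)
      rw [update_of_ne h2, Finset.piecewise_eq_of_notMem _ _ _ h1]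

/-- build a `ℤ`-multilinear map from a multi-additive function. -/
def ofAdd (f : (σ → R) → R)
    (h : ∀ a s x y, f (update a s (x + y)) = f (update a s x) + f (update a s y)) : ML σ R :=
  MultilinearMap.mk' f h fun a s c x =>
    (AddMonoidHom.mk' (fun x => f (update a s x)) (h a s)).map_zsmul c x

lemma ofAdd_apply (f : (σ → R) → R)
    (h : ∀ a s x y, f (update a s (x + y)) = f (update a s x) + f (update a s y)) (a : σ → R) :
    ofAdd f h a = f a := rfl

/-- refine the slot `s` by a commutator with a new slot. -/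
def rf (f : ML σ R) (s : σ) : ML (Option σ) R :=
  ofAdd (fun b => f (update (fun u => b (some u)) s (b (some s) * b none - b none * b (some s))))
    (by
      intro b i x y
      have hu : ∀ (j : σ) (z : R), (fun u => update b (some j) z (some u)) =
          update (fun u => b (some u)) j z := by
        intro j z
        funext u
        by_cases h : u = j
        · subst h; simp
        · simp [h]
      cases i with
      | none =>
        simp only [update_self, ne_eq, reduceCtorEq, not_false_eq_true, update_of_ne]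
        rw [← f.map_update_add]
        congr 2
        noncomm_ring
      | some j =>
        simp only [hu, ne_eq, reduceCtorEq, not_false_eq_true, update_of_ne]
        by_cases h : j = s
        · subst h
          simp only [update_self, update_idem]
          rw [← f.map_update_add]
          congr 2
          noncomm_ring
        · have h' : (some s : Option σ) ≠ some j := fun e => h (Option.some.inj e).symm
          simp only [update_of_ne h']
          rw [update_comm h, update_comm h, update_comm h, f.map_update_add])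

lemma rf_apply (f : ML σ R) (s : σ) (b : Option σ → R) : rf f s b =
    f (update (fun u => b (some u)) s (b (some s) * b none - b none * b (some s))) := rfl

lemma WL.rf {f : ML σ R} (hf : WL f) (s : σ) : WL (rf f s) := by
  intro z b m h
  rw [rf_apply]
  have := hf z (update (fun u => b (some u)) s (b (some s) * b none - b none * b (some s)))
    (update (fun u => m (some u)) s (m (some s) + m none)) (fun u => by
      by_cases hu : u = s
      · subst hu
        simp only [update_self]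
        exact sub_mem (Fz_mul _ _ _ (h _) (h _)) (add_comm (m none) _ ▸ Fz_mul _ _ _ (h _) (h _))
      · simp only [update_of_ne hu]; exact h _)
  convert this using 2
  rw [Fintype.sum_option, Finset.sum_update_of_mem (Finset.mem_univ _),
    ← Finset.add_sum_erase _ _ (Finset.mem_univ s), Finset.sdiff_singleton_eq_erase]
  omega

lemma pk_rf (f : ML σ R) (s : σ) : PK ρ (rf f s) (some s) none 1 1 := by
  intro b hb
  rw [cj_one, cj_one] at hb
  rw [rf_apply, hb.eq, sub_self]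
  simp

lemma inv0 (hs : Setup ρ S) (hE : ¬ NZ ρ S ((ν + 1) :: bg)) {f : ML σ R} (hf : WL f)
    {𝒵 : List (Finset σ)} (hb : Bg bg 𝒵) {X Y : Finset σ} (hX : X.card = ν) (hY : Y.card = ν)
    (hXY : Disjoint X Y) (hdX : ∀ Z ∈ 𝒵, Disjoint X Z) (hdY : ∀ Z ∈ 𝒵, Disjoint Y Z)
    {s : σ} (hsX : s ∉ X) (hsY : s ∉ Y)
    {a : σ → R} (ha : ∀ Z ∈ 𝒵, Cst ρ S a Z) (haX : Cst ρ S a X) (haY : Cst ρ S a Y)
    {t : H} (ht : t ∈ S) : tw ρ f (cs {s} t) a = f a := by
  set K := ρ t - 1 with hK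
  have h1 : ρ t = 1 + K := by rw [hK]; abel
  have hKK : K * K = 0 := by simpa using hs.sand t ht 1
  have h2 : ρ t⁻¹ = 1 - K := by
    have : ρ t⁻¹ * ρ t = 1 := by rw [← map_mul, inv_mul_cancel, map_one]
    calc ρ t⁻¹ = ρ t⁻¹ * ((1 + K) * (1 - K)) := by
          have : (1 + K) * (1 - K) = 1 - K * K := by noncomm_ring
          rw [this, hKK, sub_zero, mul_one]
      _ = 1 - K := by rw [← mul_assoc, ← h1, this, one_mul]
  have h3 : cj ρ t (a s) = a s + (a s * K - K * a s) := by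
    rw [cj_apply, h2, h1]
    have : (1 - K) * a s * (1 + K) = a s + (a s * K - K * a s) - K * a s * K := by noncomm_ring
    rw [this, hs.sand t ht, sub_zero]
  have h4 : tw ρ f (cs {s} t) a = f (update a s (a s + (a s * K - K * a s))) := by
    rw [tw_apply]
    congr 1
    funext u
    by_cases hu : u = s
    · subst hu; simp [cs, h3]
    · simp [cs, hu, cj_one]
  rw [h4, f.map_update_add, update_eq_self, add_eq_left]
  have hcst : ∀ Z : Finset σ, Cst ρ S a Z →
      Cst ρ S (fun o : Option σ => o.elim K a) (Z.map Embedding.some) := by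
    rintro Z ⟨x, hx, h⟩
    refine ⟨x, hx, fun o ho => ?_⟩
    obtain ⟨u, hu, rfl⟩ := Finset.mem_map.1 ho
    exact h u hu
  refine main1 hs hE (hf.rf s) (by simp) (pk_rf f s) (𝒵 := 𝒵.map (Finset.map Embedding.some))
    (X := X.map Embedding.some) (Y := Y.map Embedding.some) (a := fun o => o.elim K a)
    ⟨?_, ?_⟩ (by simp [hX]) (by simp [hY]) (by simpa using hXY) ?_ ?_ (by simp) (by simp) ?_
    (by simpa using hsX) (by simpa using hsY) ?_ (hcst X haX) (hcst Y haY) ht rfl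
  · exact List.pairwise_map.2 (hb.pw.imp fun h => by simpa using h)
  · rw [← hb.sz, List.map_map]
    exact List.map_congr_left fun Z _ => by simp
  · intro Z hZ
    obtain ⟨Z, hZ', rfl⟩ := List.mem_map.1 hZ
    simpa using hdX Z hZ'
  · intro Z hZ
    obtain ⟨Z, hZ', rfl⟩ := List.mem_map.1 hZ
    simpa using hdY Z hZ'
  · intro Z hZ
    obtain ⟨Z, hZ', rfl⟩ := List.mem_map.1 hZ
    simp
  · intro Z hZ
    obtain ⟨Z, hZ', rfl⟩ := List.mem_map.1 hZ
    exact hcst Z (ha Z hZ')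

lemma cs_mul (X : Finset σ) (k l : H) : cs X (k * l) = cs X k * cs X l := by
  funext u
  by_cases h : u ∈ X <;> simp [cs, h]

lemma inv1 (hs : Setup ρ S) (hE : ¬ NZ ρ S ((ν + 1) :: bg))
    {𝒵 : List (Finset σ)} (hb : Bg (ν :: ν :: ν :: bg) 𝒵) (s : σ)
    {a : σ → R} (ha : ∀ Z ∈ 𝒵, Cst ρ S a Z) (k : H) :
    ∀ f : ML σ R, WL f → tw ρ f (cs {s} k) a = f a := by
  have hk : k ∈ Subgroup.closure S := hs.gen ▸ Subgroup.mem_top k
  induction hk using Subgroup.closure_induction with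
  | mem t ht =>
    intro f hf
    obtain ⟨hp, hz⟩ := hb
    obtain ⟨X, 𝒵, rfl, hX, hz1⟩ := List.map_eq_cons_iff.1 hz
    obtain ⟨Y, 𝒵, rfl, hY, hz2⟩ := List.map_eq_cons_iff.1 hz1
    obtain ⟨U, 𝒵, rfl, hU, hz3⟩ := List.map_eq_cons_iff.1 hz2
    simp only [List.pairwise_cons, List.mem_cons, forall_eq_or_imp] at hp ha
    obtain ⟨⟨hXY, hXU, hdX⟩, ⟨hYU, hdY⟩, hdU, hp⟩ := hp
    obtain ⟨haX, haY, haU, ha⟩ := ha
    by_cases h1 : s ∈ X
    · exact inv0 hs hE hf ⟨hp, hz3⟩ hY hU hYU hdY hdU (Finset.disjoint_left.1 hXY h1)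
        (Finset.disjoint_left.1 hXU h1) ha haY haU ht
    · by_cases h2 : s ∈ Y
      · exact inv0 hs hE hf ⟨hp, hz3⟩ hX hU hXU hdX hdU h1
          (Finset.disjoint_left.1 hYU h2) ha haX haU ht
      · exact inv0 hs hE hf ⟨hp, hz3⟩ hX hY hXY hdX hdY h1 h2 ha haX haY ht
  | one =>
    intro f _
    have : cs {s} (1 : H) = 1 := by funext u; simp [cs]
    rw [this, tw_one]
  | mul k l _ _ ihk ihl =>
    intro f hf
    rw [cs_mul, ← tw_tw, ihk _ (hf.tw _), ihl f hf]
  | inv k _ ih =>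
    intro f hf
    rw [← ih _ (hf.tw _), tw_tw, ← cs_mul, mul_inv_cancel]
    have : cs {s} (1 : H) = 1 := by funext u; simp [cs]
    rw [this, tw_one]

end

lemma key_step (hs : Setup ρ S) (h : NZ ρ S (ν :: ν :: ν :: bg)) : NZ ρ S ((ν + 1) :: bg) := by
  by_contra hE
  obtain ⟨σ, i1, i2, f, a, 𝒵, ⟨hf, α, β, g, h, hne, hk⟩, h2, h3, h4, h5⟩ := h
  refine h5 (hs.red2 h2 α β a h4 fun a' w u ha' hr => ?_)
  obtain ⟨k, hk'⟩ := hs.p2 w (h⁻¹ * u * h)
  rw [← inv1 hs hE ⟨h2, h3⟩ α ha' (k * g⁻¹) f hf]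
  refine hr.zero (hf.tw _) (hk.tw _) ?_
  simpa [cs, hne.symm] using hk'

lemma nz_all (hs : Setup ρ S) (h0 : NZ ρ S []) (n J : ℕ) : NZ ρ S (List.replicate J n) := by
  induction n generalizing J with
  | zero =>
    induction J with
    | zero => exact h0
    | succ J ih => exact ih.zero_cons
  | succ n ih =>
    have : ∀ j m, NZ ρ S (List.replicate j (n + 1) ++ List.replicate m n) := by
      intro j
      induction j with
      | zero => intro m; simpa using ih m
      | succ j ihj =>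
        intro m
        refine key_step hs ((ihj (m + 3)).perm ?_)
        simp only [List.replicate_succ]
        exact List.perm_middle.trans ((List.perm_middle.trans (List.perm_middle.cons _)).cons _)
    simpa using this J 0

/-- The ring-theoretic theorem. -/
theorem ring_core (hs : Setup ρ S) (n : ℕ)
    (hSC : ∀ (σ : Type) [Fintype σ] [DecidableEq σ] (f : ML σ R), WL f → ∀ (a : σ → R)
      (Z : Finset σ), Z.card = n → Cst ρ S a Z → f a = 0) (x y : H) : Commute (ρ x) (ρ y) := by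
  by_contra hxy
  have h0 : NZ ρ S [] := by
    refine ⟨Bool, inferInstance, inferInstance,
      ofAdd (fun a => a false * a true - a true * a false) ?_, fun b => cond b (ρ y) (ρ x), [],
      ⟨?_, false, true, 1, 1, by simp, ?_⟩, by simp, rfl, by simp, ?_⟩
    · intro a s u v
      cases s <;> simp <;> noncomm_ring
    · intro z a m h
      rw [ofAdd_apply, Fintype.sum_bool]
      exact sub_mem (add_comm (m false) _ ▸ Fz_mul _ _ _ (h _) (h _)) (Fz_mul _ _ _ (h _) (h _))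
    · intro a ha
      rw [cj_one, cj_one] at ha
      rw [ofAdd_apply, ha.eq, sub_self]
    · rw [ofAdd_apply]
      exact fun h => hxy (sub_eq_zero.1 h)
  obtain ⟨σ, i1, i2, f, a, 𝒵, h1, -, h3, h4, h5⟩ := nz_all hs h0 n 1
  obtain ⟨Z, 𝒵, rfl, hZ, -⟩ := List.map_eq_cons_iff.1 h3
  exact h5 (hSC σ f h1.1 a Z hZ (h4 Z List.mem_cons_self))

end Pool.Agent.Work.MP_21aa77_al
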